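import Pool.Agent.Q67.BP.Per

set_option autoImplicit false

/-!
The count: a jump at a vertex in a set of directions of positive measure would give infinitely many
jumps.
-/

namespace Pool.Agent.Q67.BP

open Complex Set MeasureTheory Filter Topology Pool.Agent.W780.PG Pool.Agent.W780.BB
open Pool.Agent.TH103.BL Pool.Agent.Q75.BS

open scoped Real ComplexConjugate ENNReal

variable {n : ℕ} {p : Fin (n + 3) → ℂ}

/-- the jumps of the slice in the direction `φ`, coming from the vertex `p i` -/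
theorem count (hp : IsConvexPolygon p) {f : ℂ × ℝ → ℝ} (hI : IsInvariantFun p f) {i : Fin (n + 3)}
    {φ η : ℝ} (hη : 0 < η) {N : ℕ} (hJ : Jumps p f φ η N) (e c : List (Fin (n + 3)) → ℝ)
    (he : ∀ w, e w = 1 ∨ e w = -1)
    (hec : ∀ w, ∀ z θ, (fd p w (z, θ)).2 = e w * θ + c w ∧
      ∀ s : ℝ, fp p w (z + s • dir θ) = fp p w z + s • dir (e w * θ + c w))
    (W : Finset (List (Fin (n + 3)))) (hW : ∀ w ∈ W, e w * (φ - c w) ∈ E p f i η w) :
    W.card ≤ N := by
  obtain ⟨F, hF, hcard, hae⟩ := hJ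
  have hee : ∀ w, e w * (e w * (φ - c w)) + c w = φ := by
    intro w
    rcases he w with h | h
    · rw [h]; ring
    · rw [h]; ring
  have hfold : ∀ w, ∀ s : ℝ, fp p w (p i + s • dir (e w * (φ - c w))) =
      fp p w (p i) + s • dir φ := by
    intro w s
    rw [(hec w (p i) (e w * (φ - c w))).2 s, hee]
  have hmaps : MapsTo (fun w => co φ (fp p w (p i))) (W : Set (List (Fin (n + 3)))) (jmp F η) := by
    intro w hw
    obtain ⟨hR1, hU⟩ := hW w hw
    by_contra hcon
    apply hU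
    obtain ⟨b, s, hb, hbs, hreg, hch⟩ := hR1
    have hmem := ch_mem w _ _ hch
    rw [hfold] at hmem
    obtain ⟨k, hk⟩ := near_of_jump hp hη hae hmem (by rw [co_ray]; exact hcon)
    set θ := e w * (φ - c w) with hθ
    have e1 : p i + s • dir θ = (p i + b • dir θ) + (s - b) • dir θ := by
      rw [sub_smul]; ring
    rw [e1] at hch
    have h1 : Near (sli f θ) (p i + b • dir θ) k (3 * η / 4) := by
      refine near_pull hp hI hreg hch ?_
      rw [(hec w _ θ).1, ← e1, hθ, hee, ← hθ]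
      rw [hfold w s]
      exact hk
    exact u_of_vnear (vnear_of_near hp hI hreg h1) (by linarith)
  have hinj : InjOn (fun w => co φ (fp p w (p i))) (W : Set (List (Fin (n + 3)))) := by
    intro w hw w' hw' h
    exact distinct hp (hW w hw).1 (hW w' hw').1 (hfold w) (hfold w') h
  have h1 := (encard_le_encard_of_injOn hmaps hinj).trans hcard
  rw [Set.encard_coe_eq_coe_finsetCard] at h1
  exact_mod_cast h1

theorem sum_le (hp : IsConvexPolygon p) {f : ℂ × ℝ → ℝ} (hf : Measurable f)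
    (hI : IsInvariantFun p f) (i : Fin (n + 3)) {η : ℝ} (hη : 0 < η) {N : ℝ → ℕ}
    (hN : ∀ᵐ θ : ℝ, θ ∈ Ico 0 (2 * π) → Jumps p f θ η (N θ)) (W : Finset (List (Fin (n + 3)))) :
    ∑ w ∈ W, volume (E p f i η w ∩ Ico 0 (2 * π)) ≤ ∫⁻ θ in Ico 0 (2 * π), (N θ : ℝ≥0∞) := by
  classical
  have h := fun w => (hR n p hp).2.2.2.2.2.2.2.2.2.2.1 w
  choose e c he hec using h
  have he' : ∀ w, e w = 1 ∨ e w = -1 := by
    intro w
    rw [he]
    exact neg_one_pow_eq_or ℝ _
  have hEm : ∀ w, MeasurableSet {φ : ℝ | e w * (φ - c w) ∈ E p f i η w} := by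
    intro w
    have : Measurable fun φ : ℝ => e w * (φ - c w) := by fun_prop
    exact this (e_meas hp hf i η w)
  have h1 : ∀ w, volume (E p f i η w ∩ Ico 0 (2 * π)) =
      ∫⁻ φ in Ico 0 (2 * π), {φ : ℝ | e w * (φ - c w) ∈ E p f i η w}.indicator 1 φ := by
    intro w
    rw [lintegral_indicator_one (hEm w), Measure.restrict_apply (hEm w),
      per_vol (e_meas hp hf i η w) (e_per hI i η w) (he' w)]
  simp_rw [h1]
  rw [← lintegral_finsetSum]
  swap
  · intro w _
    exact (measurable_one.indicator (hEm w))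
  refine lintegral_mono_ae ?_
  rw [ae_restrict_iff' measurableSet_Ico]
  filter_upwards [hN] with φ hφ hφI
  have h2 : ∑ w ∈ W, {φ : ℝ | e w * (φ - c w) ∈ E p f i η w}.indicator (1 : ℝ → ℝ≥0∞) φ =
      ((W.filter fun w => e w * (φ - c w) ∈ E p f i η w).card : ℝ≥0∞) := by
    rw [Finset.card_filter]
    push_cast
    refine Finset.sum_congr rfl fun w _ => ?_
    by_cases h : e w * (φ - c w) ∈ E p f i η w
    · rw [indicator_of_mem (by exact h), if_pos h]; rfl
    · rw [indicator_of_notMem (by exact h), if_neg h]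
  rw [h2]
  have h3 := count hp hI hη (hφ hφI) e c he' hec
    (W.filter fun w => e w * (φ - c w) ∈ E p f i η w) (fun w hw => (Finset.mem_filter.1 hw).2)
  exact_mod_cast h3

/-- the words of length `k` -/
def wd (n k : ℕ) : Finset (List (Fin (n + 3))) :=
  (Finset.univ : Finset (Fin k → Fin (n + 3))).image List.ofFn

theorem mem_wd {k : ℕ} {w : List (Fin (n + 3))} : w ∈ wd n k ↔ w.length = k := by
  unfold wd
  rw [Finset.mem_image]
  constructor
  · rintro ⟨g, -, rfl⟩
    exact List.length_ofFn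
  · rintro rfl
    exact ⟨w.get, Finset.mem_univ _, List.ofFn_get w⟩

/-- the directions which point from `p i` into the region -/
def In (p : Fin (n + 3) → ℂ) (i : Fin (n + 3)) : Set ℝ := {θ | ∃ s : ℝ, 0 < s ∧ p i + s • dir θ ∈ reg p}

theorem ae_ok_vertex (hp : IsConvexPolygon p) (i : Fin (n + 3)) :
    ∀ᵐ θ : ℝ, θ ∈ In p i → Ok p (p i) θ 0 := by
  have h1 : ∀ w j, ∀ᵐ θ : ℝ, ∀ s : ℝ, 0 < s → p i + s • dir θ ≠ uf p w (p j) := by
    intro w j
    have hcount : {θ : ℝ | ¬ ∀ s : ℝ, 0 < s → p i + s • dir θ ≠ uf p w (p j)}.Countable := by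
      refine (countable_range fun k : ℤ => arg (uf p w (p j) - p i) + k * (2 * π)).mono ?_
      intro θ hθ
      rw [mem_ofPred_eq] at hθ
      push Not at hθ
      obtain ⟨s, hs, he⟩ := hθ
      have h2 : uf p w (p j) - p i = (s : ℂ) * dir θ := by rw [← he, real_smul]; ring
      have h3 : ‖uf p w (p j) - p i‖ = s := by
        rw [h2, norm_mul, norm_dir, mul_one, norm_real, Real.norm_eq_abs, abs_of_pos hs]
      have h4 := Complex.norm_mul_exp_arg_mul_I (uf p w (p j) - p i)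
      rw [h3] at h4
      have h5 : exp ((θ : ℂ) * I) = exp ((arg (uf p w (p j) - p i) : ℂ) * I) := by
        have hs' : (s : ℂ) ≠ 0 := by exact_mod_cast hs.ne'
        apply mul_left_cancel₀ hs'
        rw [h4]
        exact h2.symm
      obtain ⟨k, hk⟩ := Complex.exp_eq_exp_iff_exists_int.1 h5
      refine ⟨k, ?_⟩
      simp only
      have h6 : (θ : ℂ) * I = ((arg (uf p w (p j) - p i) + k * (2 * π) : ℝ) : ℂ) * I := by
        rw [hk]; push_cast; ring
      have h7 := mul_right_cancel₀ I_ne_zero h6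
      exact_mod_cast h7.symm
    exact hcount.measure_zero _
  have h2 : ∀ᵐ θ : ℝ, ∀ w j, ∀ s : ℝ, 0 < s → p i + s • dir θ ≠ uf p w (p j) := by
    rw [ae_all_iff]
    intro w
    rw [ae_all_iff]
    intro j
    exact h1 w j
  filter_upwards [h2] with θ hθ hin
  obtain ⟨s0, hs0, hreg⟩ := hin
  refine ⟨⟨s0, hs0, fun s h4 h5 => ?_⟩, hθ⟩
  have h6 := near_in hp hreg (κ := s / s0) (div_pos h4 hs0) ((div_le_one hs0).2 h5.le)
  rwa [div_mul_cancel₀ _ hs0.ne'] at h6

theorem reach_of_ok (hp : IsConvexPolygon p) {i : Fin (n + 3)} {θ : ℝ} (h : Ok p (p i) θ 0) (k : ℕ) :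
    ∃ w ∈ wd n k, Reach p i w θ := by
  obtain ⟨u, t, O⟩ := exists_orb hp h
  have hlt := tp_lt O k
  have htp := tp_nonneg O k
  have h0 := O.pos
  set s : ℝ := (tp t k + t k) / 2 with hs
  have hs1 : tp t k < s := by linarith
  have hs2 : s < t k := by linarith
  have hs0 : 0 < s := by linarith
  set b : ℝ := min (t 0) s / 2 with hb
  have hm : 0 < min (t 0) s := lt_min h0 hs0
  have hb0 : 0 < b := by linarith
  have hb1 : b < t 0 := by have := min_le_left (t 0) s; linarith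
  have hb2 : b < s := by have := min_le_right (t 0) s; linarith
  refine ⟨(List.range k).map u, mem_wd.2 (by simp), b, s, hb0, hb2, O.ins0 b hb0 hb1, ?_⟩
  exact ch_of hp k u t (p i) θ b s (fun k _ => O.hit k) (fun k _ => sl_neg hp O k)
    (fun _ => hb1) (fun k _ => O.mono k) (fun k hk => lt_of_tp O hs1 hk) (ps_in O k hs1 hs2)

theorem in_per (i : Fin (n + 3)) (θ : ℝ) : θ + 2 * π ∈ In p i ↔ θ ∈ In p i := by
  unfold In
  rw [mem_ofPred_eq, mem_ofPred_eq, dir_periodic]

/-- almost all directions into the region are good -/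
theorem in_null (hp : IsConvexPolygon p) {f : ℂ × ℝ → ℝ} (hf : Measurable f)
    (hI : IsInvariantFun p f) (i : Fin (n + 3)) {η : ℝ} (hη : 0 < η) {N : ℝ → ℕ}
    (hNf : ∫⁻ θ in Ico 0 (2 * π), (N θ : ℝ≥0∞) < ⊤)
    (hN : ∀ᵐ θ : ℝ, θ ∈ Ico 0 (2 * π) → Jumps p f θ η (N θ)) :
    volume (In p i \ U p f i η) = 0 := by
  classical
  refine null_per (fun θ => by rw [Set.mem_sdiff, Set.mem_sdiff, in_per, u_per hI]) ?_
  by_contra hv
  set v : ℝ≥0∞ := volume ((In p i \ U p f i η) ∩ Ico 0 (2 * π)) with hvdef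
  have hk : ∀ k : ℕ, v ≤ ∑ w ∈ wd n k, volume (E p f i η w ∩ Ico 0 (2 * π)) := by
    intro k
    refine le_trans (measure_mono_ae ?_) (measure_biUnion_finset_le (wd n k)
      fun w => E p f i η w ∩ Ico 0 (2 * π))
    filter_upwards [ae_ok_vertex hp i] with θ hθ
    rintro ⟨⟨h1, h2⟩, h3⟩
    obtain ⟨w, hw, hr⟩ := reach_of_ok hp (hθ h1) k
    exact mem_iUnion₂.2 ⟨w, hw, ⟨hr, h2⟩, h3⟩
  obtain ⟨K, hK⟩ := ENNReal.exists_nat_mul_gt hv hNf.ne
  have h1 : (K : ℝ≥0∞) * v ≤ ∑ w ∈ (Finset.range K).biUnion (wd n),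
      volume (E p f i η w ∩ Ico 0 (2 * π)) := by
    rw [Finset.sum_biUnion]
    · calc (K : ℝ≥0∞) * v = ∑ k ∈ Finset.range K, v := by
            rw [Finset.sum_const, Finset.card_range, nsmul_eq_mul]
        _ ≤ _ := Finset.sum_le_sum fun k _ => hk k
    · intro k _ l _ hkl
      rw [Function.onFun, Finset.disjoint_left]
      intro w h2 h3
      exact hkl ((mem_wd.1 h2).symm.trans (mem_wd.1 h3))
  have h2 := sum_le hp hf hI i hη hN ((Finset.range K).biUnion (wd n))
  exact absurd (h1.trans h2) (not_le.2 hK)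

/-- limits at a vertex in the directions into the region -/
theorem vlim_in (hp : IsConvexPolygon p) {f : ℂ × ℝ → ℝ} (hf : Measurable f)
    (hI : IsInvariantFun p f) (hJ : HasFewJumps p f) (i : Fin (n + 3)) :
    ∀ᵐ θ : ℝ, θ ∈ In p i → ∃ c, VLim p (sli f θ) i c := by
  have h1 : ∀ k : ℕ, ∀ᵐ θ : ℝ, θ ∉ In p i \ U p f i (1 / ((k : ℝ) + 1)) := by
    intro k
    obtain ⟨N, -, hN1, hN2⟩ := hJ (1 / ((k : ℝ) + 1)) (by positivity)
    exact measure_eq_zero_iff_ae_notMem.1 (in_null hp hf hI i (by positivity) hN1 hN2)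
  filter_upwards [ae_all_iff.2 h1] with θ hθ hin
  refine vlim_of_u hp fun k => ?_
  by_contra hcon
  exact hθ k ⟨hin, hcon⟩

end Pool.Agent.Q67.BP
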