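import Pool.Agent.Q75.BS.Final
import Mathlib.Topology.EMetricSpace.BoundedVariation

set_option autoImplicit false

/-!
Billiards in convex polygons, functions of the state whose slices (the direction is fixed) jump along
few lines: definitions.

States are pairs `(z, θ)` of a position and a direction angle; `region`, `dir`, `tau`, `phase`,
`IsInvariant` are defined in `Pool.Agent.W780.PG.Defs` and `Pool.Agent.W780.BB.Defs`,
`IsInvariantFun` in `Pool.Agent.TH103.BL.Defs`.
-/

namespace Pool.Agent.Q67.BP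

open Complex Set MeasureTheory Filter Topology Pool.Agent.W780.PG Pool.Agent.W780.BB
open Pool.Agent.TH103.BL

open scoped Real ComplexConjugate ENNReal

/-- The coordinate of the line through `z` with the direction angle `θ`: the signed distance of the
line from the origin. -/
noncomputable def co (θ : ℝ) (z : ℂ) : ℝ := (conj (dir θ) * z).im

/-- the points where the one-sided limits of `F` differ by `ε` or more -/
def jmp (F : ℝ → ℝ) (ε : ℝ) : Set ℝ :=
  {s | ∀ l r : ℝ, Tendsto F (𝓝[<] s) (𝓝 l) → Tendsto F (𝓝[>] s) (𝓝 r) → ε ≤ |l - r|}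

/-- In the direction `θ` the function `f` has jumps of size `ε` or more along at most `N` lines: up to
a null set of positions, `f (z, θ)` is a function `F` of the coordinate of the line through `z` in the
direction `θ`, where `F` has one-sided limits everywhere, which differ by `ε` or more at no more than
`N` points. -/
def Jumps {n : ℕ} (p : Fin (n + 3) → ℂ) (f : ℂ × ℝ → ℝ) (θ ε : ℝ) (N : ℕ) : Prop :=
  ∃ F : ℝ → ℝ, (∀ s, ∃ l r : ℝ, Tendsto F (𝓝[<] s) (𝓝 l) ∧ Tendsto F (𝓝[>] s) (𝓝 r)) ∧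
    (jmp F ε).encard ≤ N ∧ ∀ᵐ z : ℂ, z ∈ region p → f (z, θ) = F (co θ z)

/-- For every `ε > 0`, the function `f` has jumps of size `ε` or more along at most `N θ` lines in
almost every direction `θ`, where `N` has a finite integral over all directions. -/
def HasFewJumps {n : ℕ} (p : Fin (n + 3) → ℂ) (f : ℂ × ℝ → ℝ) : Prop :=
  ∀ ε : ℝ, 0 < ε → ∃ N : ℝ → ℕ, Measurable N ∧ ∫⁻ θ in Ico 0 (2 * π), (N θ : ℝ≥0∞) < ⊤ ∧
    ∀ᵐ θ : ℝ, θ ∈ Ico 0 (2 * π) → Jumps p f θ ε (N θ)

/-- Finite positional variation: in the direction `θ`, up to a null set of positions, `f (z, θ)` is a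
function `F` of the coordinate of the line through `z` in the direction `θ`, and the variation of
`F` is at most `V θ`, where `V` has a finite integral over all directions. -/
def HasFiniteVariation {n : ℕ} (p : Fin (n + 3) → ℂ) (f : ℂ × ℝ → ℝ) : Prop :=
  ∃ V : ℝ → ℝ≥0∞, Measurable V ∧ ∫⁻ θ in Ico 0 (2 * π), V θ < ⊤ ∧
    ∀ᵐ θ : ℝ, θ ∈ Ico 0 (2 * π) → ∃ F : ℝ → ℝ, eVariationOn F univ ≤ V θ ∧
      ∀ᵐ z : ℂ, z ∈ region p → f (z, θ) = F (co θ z)

/-- the slice of `f` in the direction `θ` has the essential limit `c` at the vertex `p i` -/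
def HasLimitAt {n : ℕ} (p : Fin (n + 3) → ℂ) (f : ℂ × ℝ → ℝ) (i : Fin (n + 3)) (θ c : ℝ) : Prop :=
  ∀ η : ℝ, 0 < η → ∃ ρ : ℝ, 0 < ρ ∧ ∀ᵐ z : ℂ, z ∈ region p → ‖z - p i‖ < ρ → |f (z, θ) - c| ≤ η

/-- the slice of `f` in the direction `θ` is constant almost everywhere within `η` of the vertex
`p i` -/
def ConstNear {n : ℕ} (p : Fin (n + 3) → ℂ) (f : ℂ × ℝ → ℝ) (i : Fin (n + 3)) (η θ : ℝ) : Prop :=
  ∃ a : ℝ, ∀ᵐ z : ℂ, z ∈ region p → ‖z - p i‖ < η → f (z, θ) = a

/-- the directions in which the slice of `f` is not constant within `η` of some vertex -/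
def Cut {n : ℕ} (p : Fin (n + 3) → ℂ) (f : ℂ × ℝ → ℝ) (η : ℝ) : Set ℝ :=
  {θ | θ ∈ Ico 0 (2 * π) ∧ ∃ i, ¬ ConstNear p f i η θ}

end Pool.Agent.Q67.BP
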