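import Pool.Agent.Q67.BP.Var

set_option autoImplicit false

/-!
Invariant functions with few jumps, whose slices are rarely cut near the vertices, are constant.
-/

namespace Pool.Agent.Q67.BP

open Complex Set MeasureTheory Filter Topology Pool.Agent.W780.PG Pool.Agent.W780.BB
open Pool.Agent.TH103.BL Pool.Agent.Q75.BS

open scoped Real ComplexConjugate ENNReal

variable {n : ℕ} {p : Fin (n + 3) → ℂ}

theorem side_vec (i : Fin (n + 3)) :
    p (i + 1) - p i = (‖p (i + 1) - p i‖ : ℂ) * dir (tau p i) := by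
  unfold tau dir
  exact (Complex.norm_mul_exp_arg_mul_I _).symm

theorem im_conj_dir (a b : ℝ) : (conj (dir a) * dir b).im = Real.sin (b - a) := by
  have hconj : conj (dir a) = dir (-a) := by
    apply Complex.ext
    · rw [conj_re, dir_re, dir_re, Real.cos_neg]
    · rw [conj_im, dir_im, dir_im, Real.sin_neg]
  rw [hconj, ← dir_add, dir_im]
  congr 1
  ring

/-- lines which are nearly parallel to a side meet the neighbourhoods of both its ends -/
theorem side_dirs (hp : IsConvexPolygon p) (i : Fin (n + 3)) : ∃ K η₁ : ℝ, 0 < K ∧ 0 < η₁ ∧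
    ∀ η : ℝ, 0 < η → η < η₁ → ∀ ε : ℝ, 0 < ε → ε < K * η → ∃ z ∈ reg p, ∃ s : ℝ, ‖z - p i‖ < η ∧
      z + s • dir (tau p i + ε) ∈ reg p ∧ ‖z + s • dir (tau p i + ε) - p (i + 1)‖ < η := by
  obtain ⟨q, hq⟩ := (hB n p hp).2.2.2.2.2.1
  set u : ℂ := q - p i with hu
  set v : ℂ := p (i + 1) - p i with hv
  set L : ℝ := ‖v‖ with hL
  have hvL : v = (L : ℂ) * dir (tau p i) := side_vec i
  have hL0 : 0 < L := by
    rw [hL, norm_pos_iff, hv, sub_ne_zero]
    intro h
    exact Pool.Agent.W174.PG.i1 i (Pool.Agent.W174.PG.inj hp h)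
  set D : ℝ := ‖u‖ + ‖u - v‖ + 1 with hD
  have hD0 : 0 < D := by positivity
  set g : ℝ → ℝ := fun θ => (conj (dir θ) * u).im with hg
  have hgc : Continuous g := by
    rw [hg]
    exact continuous_im.comp ((continuous_conj.comp continuous_dir).mul continuous_const)
  set b : ℝ := g (tau p i) with hb
  have hb0 : 0 < b := by
    have h1 : 0 < sf p i q := hq i
    have h2 : sf p i q = L * b := by
      unfold sf lft
      rw [← hv, ← hu, hvL, map_mul, conj_ofReal, mul_assoc, im_ofReal_mul]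
    rw [h2] at h1
    exact (mul_pos_iff_of_pos_left hL0).1 h1
  obtain ⟨ε₀, hε₀, hgb⟩ : ∃ ε₀ : ℝ, 0 < ε₀ ∧ ∀ ε : ℝ, 0 < ε → ε < ε₀ → b / 2 < g (tau p i + ε) := by
    have h1 : ∀ᶠ θ in 𝓝 (tau p i), b / 2 < g θ :=
      (hgc.tendsto (tau p i)).eventually_const_lt (by rw [← hb]; linarith)
    obtain ⟨ε₀, h2, h3⟩ := Metric.eventually_nhds_iff.1 h1
    refine ⟨ε₀, h2, fun ε h4 h5 => h3 ?_⟩
    rw [Real.dist_eq, add_sub_cancel_left, abs_of_pos h4]
    exact h5
  set K : ℝ := b / (4 * L * D) with hK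
  have hK0 : 0 < K := by positivity
  refine ⟨K, min D (min ε₀ π / K), hK0, lt_min hD0 (div_pos (lt_min hε₀ Real.pi_pos) hK0), ?_⟩
  intro η hη hη1 ε hε hεK
  have hηD : η < D := hη1.trans_le (min_le_left _ _)
  have hηK : K * η < min ε₀ π := by
    have := hη1.trans_le (min_le_right _ _)
    rw [lt_div_iff₀ hK0] at this
    linarith
  have hε0 : ε < ε₀ := (hεK.trans hηK).trans_le (min_le_left _ _)
  have hεπ : ε < π := (hεK.trans hηK).trans_le (min_le_right _ _)
  have hgθ := hgb ε hε hε0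
  set θ : ℝ := tau p i + ε with hθ
  have hgθ0 : 0 < g θ := by linarith
  have hsin : 0 < Real.sin ε := Real.sin_pos_of_pos_of_lt_pi hε hεπ
  have hsin' : Real.sin ε ≤ ε := Real.sin_le hε.le
  set t' : ℝ := η / (2 * D) with ht'
  have ht'0 : 0 < t' := by positivity
  have ht'1 : t' < 1 := by
    rw [ht', div_lt_one (by positivity)]
    linarith
  set δ : ℝ := (1 - t') * L * Real.sin ε / g θ with hδ
  have hδ0 : 0 < δ := div_pos (mul_pos (mul_pos (by linarith) hL0) hsin) hgθ0
  have hδt : δ < t' := by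
    rw [hδ, div_lt_iff₀ hgθ0]
    have h1 : (1 - t') * L * Real.sin ε ≤ 1 * L * ε := by
      gcongr
      linarith
    have h2 : L * ε < L * (K * η) := by gcongr
    have h3 : L * (K * η) = t' * (b / 2) := by
      rw [hK, ht']
      field_simp
      ring
    have h4 : t' * (b / 2) < t' * g θ := by gcongr
    linarith
  set z : ℂ := p i + (t' - δ) • u with hz
  have hzr : z ∈ reg p := scale_in hp i hq (by linarith) (by linarith)
  set z' : ℂ := p (i + 1) + t' • (q - p (i + 1)) with hz'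
  have hzr' : z' ∈ reg p := scale_in hp (i + 1) hq ht'0 ht'1.le
  have hdiff : z' - z = ((1 - t' : ℝ) : ℂ) * v + (δ : ℂ) * u := by
    rw [hz', hz, hv, hu, real_smul, real_smul]
    push_cast
    ring
  have hco : co θ z = co θ z' := by
    have h1 : co θ z' - co θ z = (conj (dir θ) * (z' - z)).im := by
      unfold co
      rw [mul_sub, sub_im]
    have h2 : (conj (dir θ) * (z' - z)).im = (1 - t') * (L * Real.sin (tau p i - θ)) + δ * g θ := by
      rw [hdiff, hvL]
      have e : conj (dir θ) * (((1 - t' : ℝ) : ℂ) * ((L : ℂ) * dir (tau p i)) + (δ : ℂ) * u) =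
          ((1 - t' : ℝ) : ℂ) * ((L : ℂ) * (conj (dir θ) * dir (tau p i))) +
          (δ : ℂ) * (conj (dir θ) * u) := by ring
      rw [e, add_im, im_ofReal_mul, im_ofReal_mul, im_ofReal_mul, im_conj_dir]
    have h3 : Real.sin (tau p i - θ) = - Real.sin ε := by
      rw [hθ, ← Real.sin_neg]
      congr 1
      ring
    have h4 : δ * g θ = (1 - t') * L * Real.sin ε := by
      rw [hδ, div_mul_cancel₀ _ hgθ0.ne']
    rw [h3, h4] at h2
    have : co θ z' - co θ z = 0 := by
      rw [h1, h2]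
      ring
    linarith
  obtain ⟨s, hs⟩ := co_eq hco
  refine ⟨z, hzr, s, ?_, ?_, ?_⟩
  · rw [hz, add_sub_cancel_left, norm_smul, Real.norm_eq_abs, abs_of_pos (by linarith)]
    have h1 : ‖u‖ ≤ D := by
      rw [hD]
      have := norm_nonneg (u - v)
      linarith
    calc (t' - δ) * ‖u‖ ≤ t' * D := by
          gcongr
          linarith
      _ = η / 2 := by rw [ht']; field_simp
      _ < η := by linarith
  · rw [← hs]
    exact hzr'
  · rw [← hs, hz', add_sub_cancel_left, norm_smul, Real.norm_eq_abs, abs_of_pos ht'0]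
    have h1 : ‖q - p (i + 1)‖ ≤ D := by
      have e : q - p (i + 1) = u - v := by rw [hu, hv]; ring
      rw [e, hD]
      have := norm_nonneg u
      linarith
    calc t' * ‖q - p (i + 1)‖ ≤ t' * D := by gcongr
      _ = η / 2 := by rw [ht']; field_simp
      _ < η := by linarith

/-- a constant near a vertex is the limit there -/
theorem const_eq_lim (hp : IsConvexPolygon p) {f : ℂ × ℝ → ℝ} {i : Fin (n + 3)} {η θ a c ρ : ℝ}
    (hη : 0 < η) (ha : ∀ᵐ z : ℂ, z ∈ region p → ‖z - p i‖ < η → f (z, θ) = a)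
    (hρ : 0 < ρ) (hc : ∀ᵐ z : ℂ, z ∈ region p → ‖z - p i‖ < ρ → f (z, θ) = c) : a = c := by
  obtain ⟨q, hq⟩ := exists_nat_one_div_lt (lt_min hη hρ)
  by_contra hne
  have hv : volume (Pool.Agent.Q210.BS.nb p i q) ≠ 0 := by
    have h7 := Pool.Agent.Q210.BS.nb_pos hp i q
    intro h0
    rw [h0] at h7
    simp at h7
  apply hv
  refine measure_mono_null ?_ (ae_iff.1 (ha.and hc))
  intro z hz hcon
  have hzb : ‖z - p i‖ < 1 / ((q : ℝ) + 1) := by
    have h8 : z ∈ Metric.ball (p i) (1 / ((q : ℝ) + 1)) := hz.2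
    rwa [Metric.mem_ball, dist_eq_norm] at h8
  have hzr : z ∈ region p := by rw [region_eq hp]; exact hz.1
  have h1 := hcon.1 hzr ((hzb.trans hq).trans_le (min_le_left _ _))
  have h2 := hcon.2 hzr ((hzb.trans hq).trans_le (min_le_right _ _))
  exact hne (h1.symm.trans h2)

/-- the constants at both ends of a line agree -/
theorem join (hp : IsConvexPolygon p) {f : ℂ × ℝ → ℝ} (hI : IsInvariantFun p f)
    {i j : Fin (n + 3)} {η θ a a' : ℝ}
    (ha : ∀ᵐ z : ℂ, z ∈ region p → ‖z - p i‖ < η → f (z, θ) = a)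
    (ha' : ∀ᵐ z : ℂ, z ∈ region p → ‖z - p j‖ < η → f (z, θ) = a')
    (h : ∃ z ∈ reg p, ∃ s : ℝ, ‖z - p i‖ < η ∧ z + s • dir θ ∈ reg p ∧
      ‖z + s • dir θ - p j‖ < η) : a = a' := by
  obtain ⟨z, hz, s, h1, h2, h3⟩ := h
  have hc : Continuous fun z : ℂ => z + s • dir θ := by fun_prop
  have ho : IsOpen (reg p ∩ {z | ‖z - p i‖ < η} ∩ {z | z + s • dir θ ∈ reg p} ∩
      {z | ‖z + s • dir θ - p j‖ < η}) := by
    refine (((reg_open hp).inter ?_).inter ((reg_open hp).preimage hc)).inter ?_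
    · exact isOpen_lt (by fun_prop) continuous_const
    · exact isOpen_lt (by fun_prop) continuous_const
  have h4 := (measurePreserving_add_right (volume : Measure ℂ) (s • dir θ)).quasiMeasurePreserving.ae
    ha'
  obtain ⟨y, ⟨h5, h6⟩, ⟨⟨h7, h8⟩, h9⟩, h10⟩ := (Measure.dense_of_ae (ha.and h4)).exists_mem_open ho
    ⟨z, ⟨⟨hz, h1⟩, h2⟩, h3⟩
  have hrr := region_eq hp
  have e1 := h5 (by rw [hrr]; exact h7) h8
  have e2 := h6 (by rw [hrr]; exact h9) h10
  rw [← e1, ← e2]
  exact hI.free y θ s (by rw [hrr]; exact h7) (by rw [hrr]; exact h9)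

/-- functions whose slices are rarely cut near the vertices are constant -/
theorem const_of_rare (hp : IsConvexPolygon p) (hirr : ∀ i, Irrational (ang p i / π)) :
    ∃ κ : ℝ, 0 < κ ∧ ∀ f : ℂ × ℝ → ℝ, Measurable f → IsInvariantFun p f → HasFewJumps p f →
      (∀ η₀ : ℝ, 0 < η₀ → ∃ η : ℝ, 0 < η ∧ η < η₀ ∧
        volume (Cut p f η) ≤ ENNReal.ofReal (κ * η)) →
      ∃ a : ℝ, ∀ᵐ x : ℂ × ℝ, x.1 ∈ region p → f x = a := by
  have hsides := fun i => side_dirs hp i
  choose K η₁ hK hη₁ hside using hsides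
  obtain ⟨κ, hκ, hκK⟩ : ∃ κ : ℝ, 0 < κ ∧ ∀ i, κ < K i := by
    have h6 : ∀ᶠ κ in 𝓝[>] (0 : ℝ), ∀ i, κ < K i := by
      rw [eventually_all]
      intro i
      filter_upwards [Ioo_mem_nhdsGT (hK i)] with d hd using hd.2
    obtain ⟨κ, h6, h7⟩ := (h6.and self_mem_nhdsWithin).exists
    exact ⟨κ, h7, h6⟩
  refine ⟨κ, hκ, fun f hf hI hJ hr => ?_⟩
  obtain ⟨c, hc⟩ := vlim_const hp hirr hf hI hJ
  have hcn := fun i => const_near hp hI hJ hc i
  have key : ∀ i, c i = c (i + 1) := by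
    intro i
    by_contra hne
    -- the direction of the side, in the period
    obtain ⟨τ, hτ0, hτ1, hdir⟩ : ∃ τ : ℝ, 0 ≤ τ ∧ τ < 2 * π ∧ ∀ ε : ℝ,
        dir (τ + ε) = dir (tau p i + ε) := by
      have h1 : -π < tau p i := neg_pi_lt_arg _
      have h2 : tau p i ≤ π := arg_le_pi _
      by_cases h3 : 0 ≤ tau p i
      · exact ⟨tau p i, h3, by linarith [Real.pi_pos], fun ε => rfl⟩
      · refine ⟨tau p i + 2 * π, by linarith, by linarith, fun ε => ?_⟩
        rw [show tau p i + 2 * π + ε = tau p i + ε + 2 * π by ring, dir_periodic]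
    obtain ⟨η, hη, hη0, hvol⟩ := hr (min (η₁ i) ((2 * π - τ) / K i))
      (lt_min (hη₁ i) (div_pos (by linarith) (hK i)))
    have hηK : K i * η < 2 * π - τ := by
      have := hη0.trans_le (min_le_right _ _)
      rw [lt_div_iff₀ (hK i)] at this
      linarith
    have h1 : ∀ᵐ θ : ℝ, θ ∈ Ioo τ (τ + K i * η) → θ ∈ Cut p f η := by
      filter_upwards [hcn i, hcn (i + 1)] with θ h2 h3 h4
      refine ⟨⟨by linarith [h4.1], by linarith [h4.2]⟩, ?_⟩
      by_contra h5
      push Not at h5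
      apply hne
      obtain ⟨a, ha⟩ := h5 i
      obtain ⟨a', ha'⟩ := h5 (i + 1)
      obtain ⟨ρ, hρ, h6⟩ := h2
      obtain ⟨ρ', hρ', h7⟩ := h3
      rw [← const_eq_lim hp hη ha hρ h6, ← const_eq_lim hp hη ha' hρ' h7]
      refine join hp hI ha ha' ?_
      obtain ⟨z, hz, s, h8, h9, h10⟩ := hside i η hη (hη0.trans_le (min_le_left _ _)) (θ - τ)
        (by linarith [h4.1]) (by linarith [h4.2])
      have e : dir (tau p i + (θ - τ)) = dir θ := by
        rw [← hdir]
        congr 1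
        ring
      rw [e] at h9 h10
      exact ⟨z, hz, s, h8, h9, h10⟩
    have h2 : volume (Ioo τ (τ + K i * η)) ≤ ENNReal.ofReal (κ * η) :=
      (measure_mono_ae h1).trans hvol
    rw [Real.volume_Ioo, add_sub_cancel_left] at h2
    have h3 := (ENNReal.ofReal_le_ofReal_iff (by positivity)).1 h2
    have := mul_lt_mul_of_pos_right (hκK i) hη
    linarith
  have hall : ∀ i, c i = c 0 := by
    have h1 : ∀ (m : ℕ) (h : m < n + 3), c ⟨m, h⟩ = c 0 := by
      intro m
      induction m with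
      | zero => intro h; rfl
      | succ m ih =>
        intro h
        have e : (⟨m + 1, h⟩ : Fin (n + 3)) = ⟨m, by omega⟩ + 1 := by
          apply Fin.ext
          simp [Fin.val_add, Nat.mod_eq_of_lt h]
        rw [e, ← key, ih]
    intro i
    exact h1 i.1 i.2
  refine ⟨c 0, ?_⟩
  filter_upwards [values hp hf hI hJ hc] with x hx h1
  obtain ⟨j, hj⟩ := hx h1
  rw [hj, hall]

end Pool.Agent.Q67.BP
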