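import Pool.Agent.Q67.BP.Erg

set_option autoImplicit false

/-!
Conclusions.
-/

namespace Pool.Agent.Q67.BP

open Complex Set MeasureTheory Filter Topology Pool.Agent.W780.PG Pool.Agent.W780.BB
open Pool.Agent.TH103.BL Pool.Agent.Q75.BS

open scoped Real ComplexConjugate ENNReal

variable {n : ℕ} {p : Fin (n + 3) → ℂ}

theorem limits (hp : IsConvexPolygon p) {f : ℂ × ℝ → ℝ} (hf : Measurable f)
    (hI : IsInvariantFun p f) (hJ : HasFewJumps p f) (i : Fin (n + 3)) :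
    ∀ᵐ θ : ℝ, ∃ c, HasLimitAt p f i θ c := by
  filter_upwards [vlim_all hp hf hI hJ i] with θ hθ
  obtain ⟨c, hc⟩ := hθ
  refine ⟨c, fun η hη => ?_⟩
  obtain ⟨ρ, hρ, h⟩ := hc η hη
  refine ⟨ρ, hρ, ?_⟩
  filter_upwards [h] with z hz h1
  exact hz (by rw [← region_eq hp]; exact h1)

theorem finitely_many (hp : IsConvexPolygon p) (hirr : ∀ i, Irrational (ang p i / π))
    {f : ℂ × ℝ → ℝ} (hf : Measurable f) (hI : IsInvariantFun p f) (hJ : HasFewJumps p f) :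
    ∃ c : Fin (n + 3) → ℝ, (∀ᵐ x : ℂ × ℝ, x.1 ∈ region p → ∃ i, f x = c i) ∧
      ∀ i, ∀ᵐ θ : ℝ, ∃ ρ : ℝ, 0 < ρ ∧ ∀ᵐ z : ℂ, z ∈ region p → ‖z - p i‖ < ρ → f (z, θ) = c i := by
  obtain ⟨c, hc⟩ := vlim_const hp hirr hf hI hJ
  exact ⟨c, values hp hf hI hJ hc, fun i => const_near hp hI hJ hc i⟩

/-- the structure of the invariant functions of finite positional variation, or with few jumps -/
theorem structure_thm (hp : IsConvexPolygon p) (hirr : ∀ i, Irrational (ang p i / π)) :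
    ∃ κ : ℝ, 0 < κ ∧ ∀ f : ℂ × ℝ → ℝ, Measurable f → IsInvariantFun p f →
      (HasFiniteVariation p f ∨ HasFewJumps p f) →
      ∃ c : Fin (n + 3) → ℝ, (∀ᵐ x : ℂ × ℝ, x.1 ∈ region p → ∃ i, f x = c i) ∧
        (∀ i, ∀ᵐ θ : ℝ, ∃ ρ : ℝ, 0 < ρ ∧
          ∀ᵐ z : ℂ, z ∈ region p → ‖z - p i‖ < ρ → f (z, θ) = c i) ∧
        ((∀ᵐ x : ℂ × ℝ, x.1 ∈ region p → f x = c 0) ∨
          ∃ η₀ : ℝ, 0 < η₀ ∧ ∀ η : ℝ, 0 < η → η < η₀ →
            ENNReal.ofReal (κ * η) < volume (Cut p f η)) := by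
  obtain ⟨κ, hκ, h⟩ := const_of_rare hp hirr
  refine ⟨κ, hκ, fun f hf hI hJ' => ?_⟩
  have hJ : HasFewJumps p f := by
    rcases hJ' with hJ | hJ
    · exact few_of_var hJ
    · exact hJ
  obtain ⟨c, hc⟩ := vlim_const hp hirr hf hI hJ
  refine ⟨c, values hp hf hI hJ hc, fun i => const_near hp hI hJ hc i, ?_⟩
  by_cases hr : ∀ η₀ : ℝ, 0 < η₀ → ∃ η : ℝ, 0 < η ∧ η < η₀ ∧
      volume (Cut p f η) ≤ ENNReal.ofReal (κ * η)
  · left
    obtain ⟨a, ha⟩ := h f hf hI hJ hr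
    -- the constant is `c 0`
    have h1 : a = c 0 := by
      obtain ⟨θ, h2, ρ, hρ, h3⟩ := ((ae_swap ha).and (const_near hp hI hJ hc 0)).exists
      refine const_eq_lim hp hρ ?_ hρ h3
      filter_upwards [h2] with z hz h4 _
      exact hz h4
    rw [← h1]
    exact ha
  · right
    push Not at hr
    exact hr

end Pool.Agent.Q67.BP
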