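import Pool.Agent.Q67.BP.Defs

set_option autoImplicit false

/-!
Billiards in convex polygons, invariant functions whose slices jump along finitely many lines.
Coordinates of lines, limits of slices, transport of limits.
-/

namespace Pool.Agent.Q67.BP

open Complex Set MeasureTheory Filter Topology Pool.Agent.W780.PG Pool.Agent.W780.BB
open Pool.Agent.TH103.BL Pool.Agent.Q75.BS

open scoped Real ComplexConjugate ENNReal

/-- `g` is within `η` of `c` almost everywhere near `z` -/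
def Near (g : ℂ → ℝ) (z : ℂ) (c η : ℝ) : Prop :=
  ∃ ρ : ℝ, 0 < ρ ∧ ∀ᵐ z' : ℂ, ‖z' - z‖ < ρ → |g z' - c| ≤ η

/-- `g` is within `η` of `c` almost everywhere in the region near the vertex `p i` -/
def VNear {n : ℕ} (p : Fin (n + 3) → ℂ) (g : ℂ → ℝ) (i : Fin (n + 3)) (c η : ℝ) : Prop :=
  ∃ ρ : ℝ, 0 < ρ ∧ ∀ᵐ z : ℂ, z ∈ reg p → ‖z - p i‖ < ρ → |g z - c| ≤ η

variable {n : ℕ} {p : Fin (n + 3) → ℂ}

theorem conj_dir_mul (θ : ℝ) : conj (dir θ) * dir θ = 1 := by
  rw [mul_comm, Complex.mul_conj, normSq_eq_norm_sq, norm_dir]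
  norm_num

theorem co_add (θ : ℝ) (z w : ℂ) : co θ (z + w) = co θ z + co θ w := by
  unfold co
  rw [mul_add, add_im]

theorem co_ray (θ : ℝ) (z : ℂ) (s : ℝ) : co θ (z + s • dir θ) = co θ z := by
  rw [co_add]
  unfold co
  rw [real_smul, mul_left_comm, conj_dir_mul, mul_one, ofReal_im, add_zero]

theorem co_sub_le (θ : ℝ) (z w : ℂ) : |co θ z - co θ w| ≤ ‖z - w‖ := by
  have h : co θ z - co θ w = (conj (dir θ) * (z - w)).im := by
    unfold co
    rw [mul_sub, sub_im]
  rw [h]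
  refine (abs_im_le_norm _).trans ?_
  rw [norm_mul, RCLike.norm_conj, norm_dir, one_mul]

theorem sd_co (i : Fin (n + 3)) (z : ℂ) (θ : ℝ) : sd p i (z, θ) = co θ z - co θ (p i) := by
  unfold sd co
  simp only
  rw [mul_sub, sub_im]

theorem co_eq {θ : ℝ} {z w : ℂ} (h : co θ z = co θ w) : ∃ y : ℝ, w = z + y • dir θ := by
  refine ⟨(conj (dir θ) * (w - z)).re, ?_⟩
  have him : (conj (dir θ) * (w - z)).im = 0 := by
    have : (conj (dir θ) * (w - z)).im = co θ w - co θ z := by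
      unfold co
      rw [mul_sub, sub_im]
    rw [this, h, sub_self]
  have hwr : conj (dir θ) * (w - z) = ((conj (dir θ) * (w - z)).re : ℂ) := by
    apply Complex.ext
    · simp
    · rw [him, ofReal_im]
  rw [real_smul, ← hwr]
  have h2 : conj (dir θ) * (w - z) * dir θ = (conj (dir θ) * dir θ) * (w - z) := by ring
  rw [h2, conj_dir_mul, one_mul]
  ring

theorem co_pi (θ : ℝ) (z : ℂ) : co (θ + π) z = - co θ z := by
  unfold co
  rw [dir_pi, map_neg, neg_mul, neg_im]

theorem co_ne (θ s : ℝ) : ∀ᵐ z : ℂ, co θ z ≠ s := by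
  have h1 : (-I * conj (dir θ)) ≠ 0 := by
    refine mul_ne_zero (neg_ne_zero.2 I_ne_zero) ?_
    intro h
    have h2 := conj_dir_mul θ
    rw [h, zero_mul] at h2
    exact zero_ne_one h2
  have h2 := Pool.Agent.W337.BB.null_line _ h1 s
  filter_upwards [measure_eq_zero_iff_ae_notMem.1 h2] with z hz h3
  refine hz ?_
  show (-I * conj (dir θ) * z).re = s
  rw [← h3]
  unfold co
  rw [mul_assoc, neg_mul, neg_re, I_mul_re, neg_neg]

/-- closeness at points where `F` has no big jump -/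
theorem near_of_jump (hp : IsConvexPolygon p) {f : ℂ × ℝ → ℝ} {θ η : ℝ} (hη : 0 < η) {F : ℝ → ℝ}
    (hae : ∀ᵐ z : ℂ, z ∈ region p → f (z, θ) = F (co θ z)) {z : ℂ} (hz : z ∈ reg p)
    (hc : co θ z ∉ jmp F η) : ∃ c, Near (sli f θ) z c (3 * η / 4) := by
  unfold jmp at hc
  rw [mem_ofPred_eq] at hc
  push Not at hc
  obtain ⟨l, r, hl, hr, hlr⟩ := hc
  have h1 : ∀ᶠ s in 𝓝[<] (co θ z), |F s - (l + r) / 2| < 3 * η / 4 := by
    have h := (hl.sub_const ((l + r) / 2)).abs
    refine h.eventually_lt_const ?_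
    have e : l - (l + r) / 2 = (l - r) / 2 := by ring
    rw [e, abs_div, abs_of_pos (show (0 : ℝ) < 2 by norm_num)]
    linarith
  have h2 : ∀ᶠ s in 𝓝[>] (co θ z), |F s - (l + r) / 2| < 3 * η / 4 := by
    have h := (hr.sub_const ((l + r) / 2)).abs
    refine h.eventually_lt_const ?_
    have e : r - (l + r) / 2 = -((l - r) / 2) := by ring
    rw [e, abs_neg, abs_div, abs_of_pos (show (0 : ℝ) < 2 by norm_num)]
    linarith
  have h3 : ∀ᶠ s in 𝓝[≠] (co θ z), |F s - (l + r) / 2| < 3 * η / 4 := by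
    rw [← nhdsLT_sup_nhdsGT, eventually_sup]
    exact ⟨h1, h2⟩
  rw [eventually_nhdsWithin_iff, Metric.eventually_nhds_iff] at h3
  obtain ⟨δ, hδ, h1⟩ := h3
  obtain ⟨ρ, hρ, h2⟩ := Metric.isOpen_iff.1 (reg_open hp) z hz
  refine ⟨(l + r) / 2, min δ ρ, lt_min hδ hρ, ?_⟩
  filter_upwards [hae, co_ne θ (co θ z)] with z' h3 h8 h4
  have h5 : z' ∈ reg p := h2 (by
    rw [Metric.mem_ball, dist_eq_norm]
    exact h4.trans_le (min_le_right _ _))
  have h6 : f (z', θ) = F (co θ z') := h3 (by rw [region_eq hp]; exact h5)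
  show |f (z', θ) - (l + r) / 2| ≤ 3 * η / 4
  rw [h6]
  exact (h1 (y := co θ z') (by
    rw [Real.dist_eq]
    exact (co_sub_le θ z' z).trans_lt (h4.trans_le (min_le_left _ _))) h8).le

/-- limits at a vertex whose line does not meet the region -/
theorem vlim_of_side (hp : IsConvexPolygon p) {f : ℂ × ℝ → ℝ} {θ ε : ℝ} {N : ℕ}
    (hJ : Jumps p f θ ε N)
    (i : Fin (n + 3)) (hs : (∀ z ∈ reg p, 0 < sd p i (z, θ)) ∨ ∀ z ∈ reg p, sd p i (z, θ) < 0) :
    ∃ c, VLim p (sli f θ) i c := by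
  obtain ⟨F, hF, -, hae⟩ := hJ
  obtain ⟨l', l, hl', hl⟩ := hF (co θ (p i))
  rcases hs with hs | hs
  · refine ⟨l, fun η hη => ?_⟩
    have h1 : ∀ᶠ s in 𝓝[>] (co θ (p i)), |F s - l| < η := by
      have := (hl.sub_const l).abs
      rw [sub_self, abs_zero] at this
      exact this.eventually_lt_const hη
    obtain ⟨b, hb, hsub⟩ := (mem_nhdsGT_iff_exists_Ioo_subset' (show co θ (p i) < co θ (p i) + 1 by
      linarith)).1 h1
    have hb' : co θ (p i) < b := hb
    refine ⟨b - co θ (p i), by linarith, ?_⟩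
    filter_upwards [hae] with z h2 h3 h4
    show |f (z, θ) - l| ≤ η
    rw [h2 (by rw [region_eq hp]; exact h3)]
    have h5 := hs z h3
    rw [sd_co] at h5
    have h6 := (le_abs_self _).trans (co_sub_le θ z (p i))
    exact le_of_lt (hsub ⟨by linarith, by linarith⟩)
  · refine ⟨l', fun η hη => ?_⟩
    have h1 : ∀ᶠ s in 𝓝[<] (co θ (p i)), |F s - l'| < η := by
      have := (hl'.sub_const l').abs
      rw [sub_self, abs_zero] at this
      exact this.eventually_lt_const hη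
    obtain ⟨b, hb, hsub⟩ := (mem_nhdsLT_iff_exists_Ioo_subset' (show co θ (p i) - 1 < co θ (p i) by
      linarith)).1 h1
    have hb' : b < co θ (p i) := hb
    refine ⟨co θ (p i) - b, by linarith, ?_⟩
    filter_upwards [hae] with z h2 h3 h4
    show |f (z, θ) - l'| ≤ η
    rw [h2 (by rw [region_eq hp]; exact h3)]
    have h5 := hs z h3
    rw [sd_co] at h5
    have h6 := (neg_abs_le _).trans' (neg_le_neg (co_sub_le θ z (p i)))
    exact le_of_lt (hsub ⟨by linarith, by linarith⟩)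

/-- closeness at a vertex, from closeness at a point of the line through the vertex -/
theorem vnear_of_near (hp : IsConvexPolygon p) {f : ℂ × ℝ → ℝ} (hI : IsInvariantFun p f)
    {i : Fin (n + 3)} {θ s c η : ℝ} (hs : p i + s • dir θ ∈ reg p)
    (h : Near (sli f θ) (p i + s • dir θ) c η) : VNear p (sli f θ) i c η := by
  obtain ⟨ρ, hρ, hae⟩ := h
  obtain ⟨ρ1, hρ1, h2⟩ := Metric.isOpen_iff.1 (reg_open hp) _ hs
  refine ⟨min ρ ρ1, lt_min hρ hρ1, ?_⟩
  have h3 := (measurePreserving_add_right (volume : Measure ℂ) (s • dir θ)).quasiMeasurePreserving.ae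
    hae
  filter_upwards [h3] with z h4 h5 h6
  have e : z + s • dir θ - (p i + s • dir θ) = z - p i := by ring
  have h7 : z + s • dir θ ∈ reg p := h2 (by
    rw [Metric.mem_ball, dist_eq_norm, e]
    exact h6.trans_le (min_le_right _ _))
  show |f (z, θ) - c| ≤ η
  rw [hI.free z θ s (by rw [region_eq hp]; exact h5) (by rw [region_eq hp]; exact h7)]
  exact h4 (by rw [e]; exact h6.trans_le (min_le_left _ _))

/-- closeness is transported along orbits -/
theorem near_pull (hp : IsConvexPolygon p) {f : ℂ × ℝ → ℝ} (hI : IsInvariantFun p f)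
    {w : List (Fin (n + 3))} {z : ℂ} {θ s c η : ℝ} (hz : z ∈ reg p) (hch : Ch p w z (z + s • dir θ))
    (h : Near (sli f (fd p w (z + s • dir θ, θ)).2) (fp p w (z + s • dir θ)) c η) :
    Near (sli f θ) z c η := by
  obtain ⟨ρ0, hρ0, hae⟩ := h
  obtain ⟨e, c', -, hec⟩ := (hR n p hp).2.2.2.2.2.2.2.2.2.2.1 w
  have hiso := (hR n p hp).2.2.2.2.2.2.2.1 w
  have hfst := (hR n p hp).2.2.2.2.2.2.2.2.1 w
  have hfd : ∀ y : ℂ, fd p w (y, θ) = (fp p w y, e * θ + c') := fun y =>
    Prod.ext (hfst y θ) (hec y θ).1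
  rw [hfd] at hae
  have hcont : Continuous fun z' : ℂ => (z', z' + s • dir θ) := by fun_prop
  have hop := (Pool.Agent.W762.BB.open_it n p hp w).preimage hcont
  have h2 : ∀ᶠ z' in 𝓝 z, Ch p w z' (z' + s • dir θ) := hop.mem_nhds hch
  have h3 : ∀ᶠ z' in 𝓝 z, z' ∈ reg p := (reg_open hp).mem_nhds hz
  obtain ⟨ρ1, hρ1, hball⟩ := Metric.eventually_nhds_iff.1 (h2.and h3)
  refine ⟨min ρ1 ρ0, lt_min hρ1 hρ0, ?_⟩
  have hmp : MeasurePreserving (fun z' : ℂ => fp p w (z' + s • dir θ)) :=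
    (Pool.Agent.Q210.BS.mp_fp p w).comp (measurePreserving_add_right volume (s • dir θ))
  have hae' := hmp.quasiMeasurePreserving.ae hae
  filter_upwards [hae'] with z' hz' hlt
  obtain ⟨h4, h5⟩ := hball (y := z') (by
    rw [dist_eq_norm]
    exact hlt.trans_le (min_le_left _ _))
  have h6 : sli f θ z' = sli f (e * θ + c') (fp p w (z' + s • dir θ)) := by
    unfold sli
    rw [inv_fun hp hI h5 h4, hfd]
  rw [h6]
  refine hz' ?_
  rw [hiso, add_sub_add_right_eq_sub]
  exact hlt.trans_le (min_le_right _ _)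

end Pool.Agent.Q67.BP
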