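import Pool.Agent.Q67.BP.Cnt

set_option autoImplicit false

/-!
Limits at the vertices in almost all directions.
-/

namespace Pool.Agent.Q67.BP

open Complex Set MeasureTheory Filter Topology Pool.Agent.W780.PG Pool.Agent.W780.BB
open Pool.Agent.TH103.BL Pool.Agent.Q75.BS

open scoped Real ComplexConjugate ENNReal

variable {n : ℕ} {p : Fin (n + 3) → ℂ}

theorem jumps_per {f : ℂ × ℝ → ℝ} (hI : IsInvariantFun p f) (θ ε : ℝ) (N : ℕ) :
    Jumps p f (θ + 2 * π) ε N ↔ Jumps p f θ ε N := by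
  unfold Jumps co
  simp only [hI.periodic, dir_periodic]

/-- `N`, continued periodically -/
noncomputable def Np (N : ℝ → ℕ) (θ : ℝ) : ℕ := N (2 * π * Int.fract (θ / (2 * π)))

theorem np_per (N : ℝ → ℕ) (θ : ℝ) : Np N (θ + 2 * π) = Np N θ := by
  unfold Np
  rw [add_div, div_self (by positivity), Int.fract_add_one]

theorem np_eq (N : ℝ → ℕ) {θ : ℝ} (h : θ ∈ Ico 0 (2 * π)) : Np N θ = N θ := by
  unfold Np
  have h1 : Int.fract (θ / (2 * π)) = θ / (2 * π) := by
    rw [Int.fract_eq_self]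
    refine ⟨div_nonneg h.1 (by positivity), ?_⟩
    rw [div_lt_one (by positivity)]
    exact h.2
  rw [h1, mul_div_cancel₀]
  positivity

theorem np_meas {N : ℝ → ℕ} (hN : Measurable N) : Measurable (Np N) := by
  unfold Np
  exact hN.comp ((measurable_fract.comp (measurable_id.div_const _)).const_mul _)

theorem np_ae {f : ℂ × ℝ → ℝ} (hI : IsInvariantFun p f) {ε : ℝ} {N : ℝ → ℕ}
    (hN : ∀ᵐ θ : ℝ, θ ∈ Ico 0 (2 * π) → Jumps p f θ ε (N θ)) :
    ∀ᵐ θ : ℝ, Jumps p f θ ε (Np N θ) := by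
  have h : volume {θ : ℝ | ¬ Jumps p f θ ε (Np N θ)} = 0 := by
    refine null_per (fun θ => ?_) ?_
    · rw [mem_ofPred_eq, mem_ofPred_eq, np_per, jumps_per hI]
    · refine measure_eq_zero_iff_ae_notMem.2 ?_
      filter_upwards [hN] with θ hθ
      rintro ⟨h1, h2⟩
      apply h1
      rw [np_eq N h2]
      exact hθ h2
  filter_upwards [measure_eq_zero_iff_ae_notMem.1 h] with θ hθ
  exact not_not.1 hθ

theorem np_int (N : ℝ → ℕ) : ∫⁻ θ in Ico 0 (2 * π), (Np N (θ + π) : ℝ≥0∞) =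
    ∫⁻ θ in Ico 0 (2 * π), (N θ : ℝ≥0∞) := by
  have hT : (0 : ℝ) < 2 * π := Real.two_pi_pos
  have hf : Function.Periodic (fun θ : ℝ => (Np N θ : ℝ≥0∞)) (2 * π) := fun θ => by
    simp only [np_per]
  have hinv : ∀ (g : AddSubgroup.zmultiples (2 * π)) (x : ℝ),
      (Np N (g +ᵥ x) : ℝ≥0∞) = Np N x := by
    rintro ⟨_, k, rfl⟩ x
    have h := hf.int_mul k x
    show (Np N ((k • (2 * π) : ℝ) + x) : ℝ≥0∞) = Np N x
    rw [zsmul_eq_mul, add_comm]
    exact h
  have h1 := (isAddFundamentalDomain_Ioc hT π).setLIntegral_eq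
    (isAddFundamentalDomain_Ioc hT 0) (fun θ : ℝ => (Np N θ : ℝ≥0∞)) hinv
  have h2 := (measurePreserving_add_right (volume : Measure ℝ) π).setLIntegral_comp_preimage_emb
    (measurableEmbedding_addRight π) (fun θ : ℝ => (Np N θ : ℝ≥0∞)) (Ioc π (π + 2 * π))
  have e : (fun x => x + π) ⁻¹' Ioc π (π + 2 * π) = Ioc 0 (2 * π) := by
    ext x
    simp only [mem_preimage, mem_Ioc]
    constructor
    · rintro ⟨a, b⟩; constructor <;> linarith
    · rintro ⟨a, b⟩; constructor <;> linarith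
  rw [e, h1, zero_add] at h2
  calc ∫⁻ θ in Ico 0 (2 * π), (Np N (θ + π) : ℝ≥0∞) = ∫⁻ θ in Ioc 0 (2 * π), (Np N (θ + π) : ℝ≥0∞) :=
        setLIntegral_congr Ico_ae_eq_Ioc
    _ = ∫⁻ θ in Ioc 0 (2 * π), (Np N θ : ℝ≥0∞) := h2
    _ = ∫⁻ θ in Ico 0 (2 * π), (Np N θ : ℝ≥0∞) := setLIntegral_congr Ico_ae_eq_Ioc.symm
    _ = ∫⁻ θ in Ico 0 (2 * π), (N θ : ℝ≥0∞) :=
        setLIntegral_congr_fun measurableSet_Ico fun θ hθ => by rw [np_eq N hθ]

theorem jumps_rev {f : ℂ × ℝ → ℝ} {θ ε : ℝ} {N : ℕ} (h : Jumps p f (θ + π) ε N) :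
    Jumps p (fun x => f (x.1, x.2 + π)) θ ε N := by
  obtain ⟨F, hF, hcard, hae⟩ := h
  have hl : ∀ s : ℝ, Tendsto (fun x : ℝ => -x) (𝓝[<] s) (𝓝[>] (-s)) := fun s => by
    refine tendsto_nhdsWithin_iff.2 ⟨(continuous_neg.tendsto s).mono_left nhdsWithin_le_nhds, ?_⟩
    filter_upwards [self_mem_nhdsWithin] with x hx
    exact neg_lt_neg (show x < s from hx)
  have hr : ∀ s : ℝ, Tendsto (fun x : ℝ => -x) (𝓝[>] s) (𝓝[<] (-s)) := fun s => by
    refine tendsto_nhdsWithin_iff.2 ⟨(continuous_neg.tendsto s).mono_left nhdsWithin_le_nhds, ?_⟩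
    filter_upwards [self_mem_nhdsWithin] with x hx
    exact neg_lt_neg (show s < x from hx)
  refine ⟨fun s => F (-s), fun s => ?_, ?_, ?_⟩
  · obtain ⟨l, r, h1, h2⟩ := hF (-s)
    exact ⟨r, l, h2.comp (hl s), h1.comp (hr s)⟩
  · refine le_trans (encard_le_encard_of_injOn (f := fun s => -s) ?_ (neg_injective.injOn)) hcard
    intro s hs l r h1 h2
    have h3 := hs r l (h2.comp (hl s)) (h1.comp (hr s))
    rwa [abs_sub_comm]
  · filter_upwards [hae] with z hz h1
    show f (z, θ + π) = F (-co θ z)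
    rw [hz h1, co_pi]

theorem few_rev {f : ℂ × ℝ → ℝ} (hI : IsInvariantFun p f) (h : HasFewJumps p f) :
    HasFewJumps p (fun x => f (x.1, x.2 + π)) := by
  intro ε hε
  obtain ⟨N, h1, h2, h3⟩ := h ε hε
  refine ⟨fun θ => Np N (θ + π), (np_meas h1).comp (measurable_id.add_const _), ?_, ?_⟩
  · rw [np_int]
    exact h2
  · have h4 := (measurePreserving_add_right (volume : Measure ℝ) π).quasiMeasurePreserving.ae
      (np_ae hI h3)
    filter_upwards [h4] with θ hθ _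
    exact jumps_rev hθ

/-- limits at the vertices in almost all directions -/
theorem vlim_all (hp : IsConvexPolygon p) {f : ℂ × ℝ → ℝ} (hf : Measurable f)
    (hI : IsInvariantFun p f) (hJ : HasFewJumps p f) (i : Fin (n + 3)) :
    ∀ᵐ θ : ℝ, ∃ c, VLim p (sli f θ) i c := by
  have h1 := vlim_in hp hf hI hJ i
  have hg : Measurable fun x : ℂ × ℝ => f (x.1, x.2 + π) :=
    hf.comp (measurable_fst.prodMk (measurable_snd.add_const _))
  have h2 := (measurePreserving_add_right (volume : Measure ℝ) (-π)).quasiMeasurePreserving.ae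
    (vlim_in hp hg (rev_inv hI) (few_rev hI hJ) i)
  obtain ⟨N, -, -, hN⟩ := hJ 1 one_pos
  filter_upwards [h1, h2, np_ae hI hN] with θ h3 h4 h5
  have e1 : dir (θ + -π) = - dir θ := by
    have := dir_pi (θ + -π)
    rw [neg_add_cancel_right] at this
    rw [this, neg_neg]
  by_cases ha : θ ∈ In p i
  · exact h3 ha
  by_cases hb : θ + -π ∈ In p i
  · obtain ⟨c, hc⟩ := h4 hb
    refine ⟨c, ?_⟩
    have e : sli (fun x : ℂ × ℝ => f (x.1, x.2 + π)) (θ + -π) = sli f θ := by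
      funext z
      show f (z, θ + -π + π) = f (z, θ)
      rw [neg_add_cancel_right]
    rwa [e] at hc
  · refine vlim_of_side hp h5 i ?_
    have hne : ∀ z ∈ reg p, sd p i (z, θ) ≠ 0 := by
      intro z hz h0
      rw [sd_co, sub_eq_zero] at h0
      obtain ⟨y, hy⟩ := co_eq h0.symm
      rcases lt_trichotomy y 0 with h | h | h
      · refine hb ⟨-y, by linarith, ?_⟩
        rw [e1, smul_neg, neg_smul, neg_neg, ← hy]
        exact hz
      · rw [h, zero_smul, add_zero] at hy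
        rw [hy] at hz
        exact (vertex_not_mem hp i).1 hz
      · exact ha ⟨y, h, by rw [← hy]; exact hz⟩
    by_contra hcon
    push Not at hcon
    obtain ⟨⟨z, hz, h6⟩, z', hz', h7⟩ := hcon
    have h6' : sd p i (z, θ) < 0 := lt_of_le_of_ne h6 (hne z hz)
    have h7' : 0 < sd p i (z', θ) := lt_of_le_of_ne h7 (hne z' hz').symm
    have hconv : Convex ℝ (reg p) := (hB n p hp).2.2.1
    have hpre := hconv.isPreconnected
    have hcont : ContinuousOn (fun z : ℂ => sd p i (z, θ)) (reg p) :=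
      ((sd_cont p i).comp (continuous_id.prodMk continuous_const)).continuousOn
    obtain ⟨y, hy, hy0⟩ := hpre.intermediate_value hz hz' hcont ⟨h6'.le, h7'.le⟩
    exact hne y hy hy0

/-- the constants at the vertices -/
theorem vlim_const (hp : IsConvexPolygon p) (hirr : ∀ i, Irrational (ang p i / π))
    {f : ℂ × ℝ → ℝ} (hf : Measurable f) (hI : IsInvariantFun p f) (hJ : HasFewJumps p f) :
    ∃ c : Fin (n + 3) → ℝ, ∀ i, ∀ᵐ θ : ℝ, VLim p (sli f θ) i (c i) := by
  have h := fun i => vc n p hp f hf hI i (hirr i) (vlim_all hp hf hI hJ i)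
  choose c hc using h
  exact ⟨c, hc⟩

end Pool.Agent.Q67.BP
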