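import Pool.Agent.Q67.BP.Uni

set_option autoImplicit false

/-!
Periodic sets of directions; measurability of the set of directions in which a function is nearly
constant near a vertex.
-/

namespace Pool.Agent.Q67.BP

open Complex Set MeasureTheory Filter Topology Pool.Agent.W780.PG Pool.Agent.W780.BB
open Pool.Agent.TH103.BL Pool.Agent.Q75.BS

open scoped Real ComplexConjugate ENNReal

/-- reflections and translations preserve the measure of a periodic set, in a period -/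
theorem per_vol {E : Set ℝ} (hE : MeasurableSet E) (hper : ∀ θ, θ + 2 * π ∈ E ↔ θ ∈ E) {e : ℝ}
    (he : e = 1 ∨ e = -1) (c : ℝ) :
    volume ({φ | e * (φ - c) ∈ E} ∩ Ico 0 (2 * π)) = volume (E ∩ Ico 0 (2 * π)) := by
  have hT : (0 : ℝ) < 2 * π := Real.two_pi_pos
  have hf : Function.Periodic (fun θ : ℝ => (θ ∈ E : Prop)) (2 * π) := fun θ => propext (hper θ)
  have hinv : ∀ g : AddSubgroup.zmultiples (2 * π), (fun x : ℝ => g +ᵥ x) ⁻¹' E = E := by
    rintro ⟨_, k, rfl⟩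
    ext θ
    have h := hf.int_mul k θ
    have h2 : (θ + (k : ℝ) * (2 * π) ∈ E) = (θ ∈ E) := h
    show (k • (2 * π) : ℝ) + θ ∈ E ↔ θ ∈ E
    rw [zsmul_eq_mul, add_comm, h2]
  have key : ∀ a : ℝ, volume (E ∩ Ioc a (a + 2 * π)) = volume (E ∩ Ico 0 (2 * π)) := by
    intro a
    have h1 := (isAddFundamentalDomain_Ioc hT a).measure_set_eq
      (isAddFundamentalDomain_Ioc hT 0) hE hinv
    rw [zero_add] at h1
    rw [h1]
    exact measure_congr ((ae_eq_refl _).inter Ico_ae_eq_Ioc.symm)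
  rcases he with rfl | rfl
  · have h1 : {φ | 1 * (φ - c) ∈ E} ∩ Ico 0 (2 * π) =
        (fun φ => φ - c) ⁻¹' (E ∩ Ico (-c) (-c + 2 * π)) := by
      ext φ
      simp only [mem_inter_iff, mem_ofPred_eq, mem_preimage, mem_Ico, one_mul]
      constructor
      · rintro ⟨h1, h2, h3⟩; exact ⟨h1, by linarith, by linarith⟩
      · rintro ⟨h1, h2, h3⟩; exact ⟨h1, by linarith, by linarith⟩
    rw [h1, (measurePreserving_sub_right (volume : Measure ℝ) c).measure_preimage
      (hE.inter measurableSet_Ico).nullMeasurableSet, ← key (-c)]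
    exact measure_congr ((ae_eq_refl _).inter Ico_ae_eq_Ioc)
  · have h1 : {φ | -1 * (φ - c) ∈ E} ∩ Ico 0 (2 * π) =
        (fun φ => c - φ) ⁻¹' (E ∩ Ioc (c - 2 * π) (c - 2 * π + 2 * π)) := by
      ext φ
      have e : -1 * (φ - c) = c - φ := by ring
      simp only [mem_inter_iff, mem_ofPred_eq, mem_preimage, mem_Ico, mem_Ioc, e]
      constructor
      · rintro ⟨h1, h2, h3⟩; exact ⟨h1, by linarith, by linarith⟩
      · rintro ⟨h1, h2, h3⟩; exact ⟨h1, by linarith, by linarith⟩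
    rw [h1, (Measure.measurePreserving_sub_left (volume : Measure ℝ) c).measure_preimage
      (hE.inter measurableSet_Ioc).nullMeasurableSet, key]

/-- a periodic set which is null over one period is null -/
theorem null_per {E : Set ℝ} (hper : ∀ θ, θ + 2 * π ∈ E ↔ θ ∈ E)
    (h : volume (E ∩ Ico 0 (2 * π)) = 0) : volume E = 0 := by
  have hf : Function.Periodic (fun θ : ℝ => (θ ∈ E : Prop)) (2 * π) := fun θ => propext (hper θ)
  have h1 : E ⊆ ⋃ k : ℤ, (fun θ : ℝ => θ + (k : ℝ) * (2 * π)) ⁻¹' (E ∩ Ico 0 (2 * π)) := by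
    intro θ hθ
    rw [mem_iUnion]
    refine ⟨-⌊θ / (2 * π)⌋, ?_, ?_, ?_⟩
    · have h2 : (θ + ((-⌊θ / (2 * π)⌋ : ℤ) : ℝ) * (2 * π) ∈ E) = (θ ∈ E) := hf.int_mul _ θ
      show θ + ((-⌊θ / (2 * π)⌋ : ℤ) : ℝ) * (2 * π) ∈ E
      rw [h2]
      exact hθ
    · have := Int.floor_le (θ / (2 * π))
      rw [le_div_iff₀ (by positivity)] at this
      push_cast
      linarith
    · have := Int.lt_floor_add_one (θ / (2 * π))
      rw [div_lt_iff₀ (by positivity)] at this
      push_cast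
      linarith
  refine measure_mono_null h1 (measure_iUnion_null fun k => ?_)
  rw [measure_preimage_add_right]
  exact h

variable {n : ℕ} {p : Fin (n + 3) → ℂ}

/-- the directions in which `f` is within `η` of a rational constant near `p i` -/
def U (p : Fin (n + 3) → ℂ) (f : ℂ × ℝ → ℝ) (i : Fin (n + 3)) (η : ℝ) : Set ℝ :=
  ⋃ m : ℕ, ⋃ q : ℚ, {θ : ℝ | volume ((fun z : ℂ => (z, θ)) ⁻¹'
    {x : ℂ × ℝ | x.1 ∈ Pool.Agent.Q210.BS.nb p i m ∧ η < |f x - q|}) = 0}

theorem u_meas (hp : IsConvexPolygon p) {f : ℂ × ℝ → ℝ} (hf : Measurable f) (i : Fin (n + 3))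
    (η : ℝ) : MeasurableSet (U p f i η) := by
  refine MeasurableSet.iUnion fun m => MeasurableSet.iUnion fun q => ?_
  have h1 : MeasurableSet {x : ℂ × ℝ | x.1 ∈ Pool.Agent.Q210.BS.nb p i m ∧ η < |f x - q|} :=
    (measurable_fst (Pool.Agent.Q210.BS.nb_open hp i m).measurableSet).inter
      (measurableSet_lt measurable_const ((hf.sub_const _).abs))
  exact (measurable_measure_prodMk_right (μ := (volume : Measure ℂ)) h1)
    (measurableSet_singleton (0 : ℝ≥0∞))

theorem u_per {f : ℂ × ℝ → ℝ} (hI : IsInvariantFun p f) (i : Fin (n + 3)) (η θ : ℝ) :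
    θ + 2 * π ∈ U p f i η ↔ θ ∈ U p f i η := by
  unfold U
  simp only [mem_iUnion, mem_ofPred_eq, preimage_ofPred_eq, hI.periodic]

theorem u_of_vnear {f : ℂ × ℝ → ℝ} {i : Fin (n + 3)} {θ c η η' : ℝ}
    (h : VNear p (sli f θ) i c η') (hη : η' < η) : θ ∈ U p f i η := by
  obtain ⟨ρ, hρ, hae⟩ := h
  obtain ⟨m, hm⟩ := exists_nat_one_div_lt hρ
  obtain ⟨q, hq1, hq2⟩ := exists_rat_btwn (show c < c + (η - η') by linarith)
  unfold U
  simp only [mem_iUnion, mem_ofPred_eq]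
  refine ⟨m, q, measure_eq_zero_iff_ae_notMem.2 ?_⟩
  filter_upwards [hae] with z hz hzB
  obtain ⟨⟨h1, h2⟩, h3⟩ := hzB
  have h2' : ‖z - p i‖ < 1 / ((m : ℝ) + 1) := by
    have h4 : z ∈ Metric.ball (p i) (1 / ((m : ℝ) + 1)) := h2
    rwa [Metric.mem_ball, dist_eq_norm] at h4
  have h4 : |f (z, θ) - c| ≤ η' := hz h1 (h2'.trans hm)
  have h3' : η < |f (z, θ) - q| := h3
  have h5 : |f (z, θ) - q| ≤ |f (z, θ) - c| + |c - q| := abs_sub_le _ _ _
  have h6 : |c - q| < η - η' := by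
    rw [abs_sub_comm, abs_of_pos (by linarith)]
    linarith
  linarith

theorem vlim_of_u (hp : IsConvexPolygon p) {f : ℂ × ℝ → ℝ} {i : Fin (n + 3)} {θ : ℝ}
    (h : ∀ k : ℕ, θ ∈ U p f i (1 / ((k : ℝ) + 1))) : ∃ c, VLim p (sli f θ) i c := by
  unfold U at h
  simp only [mem_iUnion, mem_ofPred_eq] at h
  choose m q hmq using h
  have hmq' : ∀ k, ∀ᵐ z : ℂ, z ∈ Pool.Agent.Q210.BS.nb p i (m k) →
      |f (z, θ) - q k| ≤ 1 / ((k : ℝ) + 1) := by
    intro k
    filter_upwards [measure_eq_zero_iff_ae_notMem.1 (hmq k)] with z h1 h2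
    by_contra h3
    exact h1 ⟨h2, not_le.1 h3⟩
  have hmono : ∀ {a b : ℕ}, a ≤ b → Pool.Agent.Q210.BS.nb p i b ⊆ Pool.Agent.Q210.BS.nb p i a := by
    intro a b hab
    refine inter_subset_inter_right _ (Metric.ball_subset_ball ?_)
    exact Nat.one_div_le_one_div hab
  have hclose : ∀ k l, |(q k : ℝ) - q l| ≤ 1 / ((k : ℝ) + 1) + 1 / ((l : ℝ) + 1) := by
    intro k l
    have h1 := Pool.Agent.Q210.BS.nb_pos hp i (max (m k) (m l))
    have h2 : volume (Pool.Agent.Q210.BS.nb p i (max (m k) (m l))) ≠ 0 := by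
      intro h0
      rw [h0] at h1
      simp at h1
    have h3 : (Pool.Agent.Q210.BS.nb p i (max (m k) (m l)) ∩
        {z | (z ∈ Pool.Agent.Q210.BS.nb p i (m k) → |f (z, θ) - q k| ≤ 1 / ((k : ℝ) + 1)) ∧
          (z ∈ Pool.Agent.Q210.BS.nb p i (m l) → |f (z, θ) - q l| ≤ 1 / ((l : ℝ) + 1))}).Nonempty := by
      rw [nonempty_iff_ne_empty]
      intro h0
      apply h2
      refine measure_mono_null ?_ (ae_iff.1 ((hmq' k).and (hmq' l)))
      intro z hz hcon
      have : z ∈ (∅ : Set ℂ) := by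
        rw [← h0]
        exact ⟨hz, hcon⟩
      exact this
    obtain ⟨z, hz, h4, h5⟩ := h3
    have h6 := h4 (hmono (le_max_left _ _) hz)
    have h7 := h5 (hmono (le_max_right _ _) hz)
    calc |(q k : ℝ) - q l| ≤ |(q k : ℝ) - f (z, θ)| + |f (z, θ) - q l| := abs_sub_le _ _ _
      _ ≤ 1 / ((k : ℝ) + 1) + 1 / ((l : ℝ) + 1) := by
        rw [abs_sub_comm (q k : ℝ)]
        exact add_le_add h6 h7
  have hC : CauchySeq fun k => (q k : ℝ) := by
    rw [Metric.cauchySeq_iff']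
    intro ε hε
    obtain ⟨K, hK⟩ := exists_nat_one_div_lt (half_pos hε)
    refine ⟨K, fun k hk => ?_⟩
    rw [Real.dist_eq]
    have h1 := hclose k K
    have h2 : 1 / ((k : ℝ) + 1) ≤ 1 / ((K : ℝ) + 1) := Nat.one_div_le_one_div hk
    linarith
  obtain ⟨c, hc⟩ := cauchySeq_tendsto_of_complete hC
  have hqc : ∀ k, |(q k : ℝ) - c| ≤ 1 / ((k : ℝ) + 1) := by
    intro k
    have h1 : Tendsto (fun l => |(q k : ℝ) - q l|) atTop (𝓝 |(q k : ℝ) - c|) :=
      (hc.const_sub _).abs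
    have h2 : Tendsto (fun l : ℕ => 1 / ((k : ℝ) + 1) + 1 / ((l : ℝ) + 1)) atTop
        (𝓝 (1 / ((k : ℝ) + 1) + 0)) := tendsto_one_div_add_atTop_nhds_zero_nat.const_add _
    rw [add_zero] at h2
    exact le_of_tendsto_of_tendsto' h1 h2 (hclose k)
  refine ⟨c, fun η hη => ?_⟩
  obtain ⟨k, hk⟩ := exists_nat_one_div_lt (half_pos hη)
  refine ⟨1 / ((m k : ℝ) + 1), by positivity, ?_⟩
  filter_upwards [hmq' k] with z h1 h2 h3
  have h4 := h1 ⟨h2, by rw [Metric.mem_ball, dist_eq_norm]; exact h3⟩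
  have h5 := hqc k
  have h6 : |f (z, θ) - c| ≤ |f (z, θ) - q k| + |(q k : ℝ) - c| := abs_sub_le _ _ _
  show |f (z, θ) - c| ≤ η
  linarith

/-- reaching is open and periodic -/
theorem reach_open (hp : IsConvexPolygon p) (i : Fin (n + 3)) (w : List (Fin (n + 3))) :
    IsOpen {θ | Reach p i w θ} := by
  have e : {θ | Reach p i w θ} = ⋃ b : ℝ, ⋃ s : ℝ, {θ | 0 < b ∧ b < s ∧ p i + b • dir θ ∈ reg p ∧
      Ch p w (p i + b • dir θ) (p i + s • dir θ)} := by
    ext θ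
    simp only [Reach, mem_ofPred_eq, mem_iUnion]
  rw [e]
  refine isOpen_iUnion fun b => isOpen_iUnion fun s => ?_
  by_cases h : 0 < b ∧ b < s
  · have hc : ∀ s : ℝ, Continuous fun θ : ℝ => p i + s • dir θ := fun s =>
      continuous_const.add (continuous_dir.const_smul s)
    have h1 : IsOpen {θ : ℝ | p i + b • dir θ ∈ reg p} := (reg_open hp).preimage (hc b)
    have h2 : IsOpen {θ : ℝ | Ch p w (p i + b • dir θ) (p i + s • dir θ)} :=
      (Pool.Agent.W762.BB.open_it n p hp w).preimage ((hc b).prodMk (hc s))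
    have : {θ : ℝ | 0 < b ∧ b < s ∧ p i + b • dir θ ∈ reg p ∧
        Ch p w (p i + b • dir θ) (p i + s • dir θ)} = {θ : ℝ | p i + b • dir θ ∈ reg p} ∩
        {θ : ℝ | Ch p w (p i + b • dir θ) (p i + s • dir θ)} := by
      ext θ; simp [h.1, h.2]
    rw [this]
    exact h1.inter h2
  · have : {θ : ℝ | 0 < b ∧ b < s ∧ p i + b • dir θ ∈ reg p ∧
        Ch p w (p i + b • dir θ) (p i + s • dir θ)} = ∅ := by
      ext θ
      simp only [mem_ofPred_eq, mem_empty_iff_false, iff_false]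
      rintro ⟨h1, h2, -⟩
      exact h ⟨h1, h2⟩
    rw [this]
    exact isOpen_empty

theorem reach_per (i : Fin (n + 3)) (w : List (Fin (n + 3))) (θ : ℝ) :
    Reach p i w (θ + 2 * π) ↔ Reach p i w θ := by
  unfold Reach
  rw [dir_periodic]

/-- the bad directions, with a given itinerary -/
def E (p : Fin (n + 3) → ℂ) (f : ℂ × ℝ → ℝ) (i : Fin (n + 3)) (η : ℝ) (w : List (Fin (n + 3))) :
    Set ℝ := {θ | Reach p i w θ} \ U p f i η

theorem e_meas (hp : IsConvexPolygon p) {f : ℂ × ℝ → ℝ} (hf : Measurable f) (i : Fin (n + 3))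
    (η : ℝ) (w : List (Fin (n + 3))) : MeasurableSet (E p f i η w) :=
  (reach_open hp i w).measurableSet.diff (u_meas hp hf i η)

theorem e_per {f : ℂ × ℝ → ℝ} (hI : IsInvariantFun p f) (i : Fin (n + 3))
    (η : ℝ) (w : List (Fin (n + 3))) (θ : ℝ) : θ + 2 * π ∈ E p f i η w ↔ θ ∈ E p f i η w := by
  unfold E
  rw [Set.mem_sdiff, Set.mem_sdiff, u_per hI, mem_ofPred_eq, mem_ofPred_eq, reach_per]

end Pool.Agent.Q67.BP
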