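import Pool.Agent.Q67.BP.Geo

set_option autoImplicit false

/-!
Orbits which leave a vertex: two different ones which arrive at the same line in the same direction.
-/

namespace Pool.Agent.Q67.BP

open Complex Set MeasureTheory Filter Topology Pool.Agent.W780.PG Pool.Agent.W780.BB
open Pool.Agent.TH103.BL Pool.Agent.Q75.BS

open scoped Real ComplexConjugate ENNReal

variable {n : ℕ} {p : Fin (n + 3) → ℂ}

theorem sf_aff (p : Fin (n + 3) → ℂ) (i : Fin (n + 3)) (u v : ℂ) (s : ℝ) :
    sf p i (u + s • (v - u)) = sf p i u + s * (sf p i v - sf p i u) :=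
  _root_.W973.BB.sf_line p i u v s

/-- the crossing point does not depend on the start, on a line -/
theorem cr_shift (i : Fin (n + 3)) {B A : ℂ} {κ : ℝ} (hκ : κ ≠ 0)
    (h : sf p i B - sf p i A ≠ 0) : cr p i (A + κ • (B - A)) A = cr p i B A := by
  unfold cr
  rw [sf_aff]
  set a := sf p i A with ha
  set b := sf p i B with hb
  have e0 : a + κ * (b - a) - a = κ * (b - a) := by ring
  rw [e0]
  have hba : (b - a : ℝ) ≠ 0 := h
  have e1 : A - (A + κ • (B - A)) = (-κ) • (B - A) := by rw [neg_smul]; ring
  rw [e1, smul_smul]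
  have e2 : (a + κ * (b - a)) / (κ * (b - a)) * -κ = -(κ + a / (b - a)) := by
    field_simp
    ring
  rw [e2]
  have e3 : A - B = (-1 : ℝ) • (B - A) := by rw [neg_smul, one_smul]; ring
  have e4 : B = A + (1 : ℝ) • (B - A) := by rw [one_smul]; ring
  have e5 : b / (b - a) = 1 + a / (b - a) := by
    field_simp
    ring
  rw [e5]
  rw [e3, smul_smul]
  conv_rhs => lhs; rw [e4]
  rw [add_assoc, add_assoc, ← add_smul, ← add_smul]
  congr 2
  ring

/-- the crossing point does not depend on the end, on a line -/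
theorem cr_shift_end (i : Fin (n + 3)) {B A : ℂ} {κ : ℝ} (hκ : κ ≠ 0)
    (h : sf p i B - sf p i A ≠ 0) : cr p i B (B + κ • (A - B)) = cr p i B A := by
  unfold cr
  rw [sf_aff]
  set a := sf p i A with ha
  set b := sf p i B with hb
  have e0 : b - (b + κ * (a - b)) = κ * (b - a) := by ring
  rw [e0]
  have e1 : B + κ • (A - B) - B = κ • (A - B) := by ring
  rw [e1, smul_smul]
  congr 2
  field_simp

/-- the start of a chain may be moved along the line, inside the region -/
theorem ch_shift {w : List (Fin (n + 3))} {B A : ℂ} (h : Ch p w B A) {κ : ℝ} (hκ : κ ≠ 0)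
    (hB : A + κ • (B - A) ∈ reg p) : Ch p w (A + κ • (B - A)) A := by
  cases w with
  | nil => exact h
  | cons i v =>
    obtain ⟨h1, h2, h3, h4⟩ := h
    have e := cr_shift (p := p) i (B := B) (A := A) hκ (by linarith)
    exact ⟨hB i, h2, by rw [e]; exact h3, by rw [e]; exact h4⟩

/-- intermediate points of a chain -/
theorem pre (hp : IsConvexPolygon p) : ∀ (v : List (Fin (n + 3))) (B A : ℂ), B ∈ creg p →
    Ch p v B A → ∀ τ : ℝ, 0 < τ → τ < 1 → ∃ v'' : List (Fin (n + 3)),
      (∀ᶠ τ' in 𝓝[<] τ, Ch p v'' B (B + τ' • (A - B))) ∧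
      (fp p v'' (B + τ • (A - B)) ∈ reg p ∨ ∃ i, fp p v'' (B + τ • (A - B)) ∈ side p i) := by
  intro v
  induction v with
  | nil =>
    intro B A hB hch τ h0 h1
    have key : ∀ τ' : ℝ, 0 < τ' → τ' < 1 → B + τ' • (A - B) ∈ reg p := by
      intro τ' h2 h3 j
      change 0 < sf p j _
      rw [Pool.Agent.W82.BB.sf_line]
      have h4 : 0 ≤ sf p j B := hB j
      have h5 : 0 < sf p j A := hch j
      have := mul_pos h2 h5
      have := mul_nonneg (sub_nonneg.2 h3.le) h4
      linarith
    refine ⟨[], ?_, Or.inl (key τ h0 h1)⟩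
    filter_upwards [Ioo_mem_nhdsLT h0] with τ' h2
    exact key τ' h2.1 (h2.2.trans h1)
  | cons i v ih =>
    intro B A hB hch τ h0 h1
    obtain ⟨g1, g2, g3, g4⟩ := hch
    set a := sf p i A with ha
    set b := sf p i B with hb
    have hab : 0 < b - a := by linarith
    set τC : ℝ := b / (b - a) with hτC
    have hC0 : 0 < τC := div_pos g1 hab
    have hC1 : τC < 1 := by
      rw [hτC, div_lt_one hab]
      linarith
    set C := cr p i B A with hC
    have hCe : C = B + τC • (A - B) := rfl
    have hCs : sf p i C = 0 := by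
      rw [hCe, sf_aff, ← ha, ← hb, hτC]
      field_simp
      ring
    have hCside : C ∈ side p i := Pool.Agent.W82.BB.mem_side hp hCs g3
    have hCreg : C ∈ creg p := side_sub_creg hp i hCside
    -- before the crossing
    have key : ∀ τ' : ℝ, 0 < τ' → τ' < τC → B + τ' • (A - B) ∈ reg p := by
      intro τ' h2 h3
      have e : B + τ' • (A - B) = B + (τ' / τC) • (C - B) := by
        rw [hCe, add_sub_cancel_left, smul_smul, div_mul_cancel₀ _ hC0.ne']
      have h4 : 0 < τ' / τC := div_pos h2 hC0
      have h5 : τ' / τC < 1 := (div_lt_one hC0).2 h3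
      intro j
      change 0 < sf p j _
      rw [e, Pool.Agent.W82.BB.sf_line]
      by_cases hj : j = i
      · subst hj
        rw [hCs, mul_zero, add_zero]
        exact mul_pos (by linarith) g1
      · have h6 : 0 ≤ sf p j B := hB j
        have h7 : 0 < sf p j C := g3 j hj
        have := mul_pos h4 h7
        have := mul_nonneg (sub_nonneg.2 h5.le) h6
        linarith
    rcases lt_trichotomy τ τC with h2 | h2 | h2
    · refine ⟨[], ?_, Or.inl (key τ h0 h2)⟩
      filter_upwards [Ioo_mem_nhdsLT h0] with τ' h3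
      exact key τ' h3.1 (h3.2.trans h2)
    · refine ⟨[], ?_, Or.inr ⟨i, ?_⟩⟩
      · filter_upwards [Ioo_mem_nhdsLT h0] with τ' h3
        exact key τ' h3.1 (h3.2.trans_le h2.le)
      · rw [h2, ← hCe]
        exact hCside
    · -- after the crossing
      have h1C : 0 < 1 - τC := by linarith
      set τ1 : ℝ := (τ - τC) / (1 - τC) with hτ1
      have hτ10 : 0 < τ1 := div_pos (by linarith) h1C
      have hτ11 : τ1 < 1 := (div_lt_one h1C).2 (by linarith)
      obtain ⟨v'', h3, h4⟩ := ih C (rf p i A) hCreg g4 τ1 hτ10 hτ11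
      have hrC : rf p i C = C := rf_fix hp i C hCs
      have hpt : ∀ τ' : ℝ, rf p i (B + τ' • (A - B)) =
          C + ((τ' - τC) / (1 - τC)) • (rf p i A - C) := by
        intro τ'
        have e : B + τ' • (A - B) = C + ((τ' - τC) / (1 - τC)) • (A - C) := by
          have e1 : A - C = (1 - τC) • (A - B) := by
            rw [hCe, sub_smul, one_smul]
            ring
          rw [e1, smul_smul, div_mul_cancel₀ _ h1C.ne', hCe, sub_smul]
          ring
        rw [e, (hR n p hp).2.2.2.2.2.1, hrC]
      refine ⟨i :: v'', ?_, ?_⟩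
      · have ht : Tendsto (fun τ' : ℝ => (τ' - τC) / (1 - τC)) (𝓝[<] τ) (𝓝[<] τ1) := by
          refine tendsto_nhdsWithin_iff.2 ⟨?_, ?_⟩
          · exact ((((continuous_id.sub continuous_const).div_const _).tendsto τ)).mono_left
              nhdsWithin_le_nhds
          · filter_upwards [self_mem_nhdsWithin] with τ' h5
            have h5' : τ' < τ := h5
            show (τ' - τC) / (1 - τC) < (τ - τC) / (1 - τC)
            exact div_lt_div_of_pos_right (by linarith) h1C
        have h5 := ht.eventually h3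
        have h6 : ∀ᶠ τ' in 𝓝[<] τ, τC < τ' := by
          filter_upwards [Ioo_mem_nhdsLT h2] with τ' h7 using h7.1
        filter_upwards [h5, h6] with τ' h7 h8
        have hτ' : τ' ≠ 0 := by linarith
        have e := cr_shift_end (p := p) i (B := B) (A := A) hτ' hab.ne'
        refine ⟨g1, ?_, ?_, ?_⟩
        · rw [sf_aff, ← ha, ← hb]
          have h9 : b = τC * (b - a) := by rw [hτC]; field_simp
          have h10 := mul_lt_mul_of_pos_right h8 hab
          linarith
        · rw [e]; exact g3
        · rw [e, hpt]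
          exact h7
      · show fp p v'' (rf p i (B + τ • (A - B))) ∈ reg p ∨
          ∃ j, fp p v'' (rf p i (B + τ • (A - B))) ∈ side p j
        rw [hpt]
        exact h4

/-- The orbit which leaves the vertex `p i` in the direction `θ` has the itinerary `w`, at some
time. -/
def Reach (p : Fin (n + 3) → ℂ) (i : Fin (n + 3)) (w : List (Fin (n + 3))) (θ : ℝ) : Prop :=
  ∃ b s : ℝ, 0 < b ∧ b < s ∧ p i + b • dir θ ∈ reg p ∧
    Ch p w (p i + b • dir θ) (p i + s • dir θ)

theorem vertex_not_mem (hp : IsConvexPolygon p) (i : Fin (n + 3)) :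
    p i ∉ reg p ∧ ∀ j, p i ∉ side p j := by
  refine ⟨fun h => ?_, fun j h => (hB n p hp).2.2.2.2.2.2.2.2.2.2.2.1 j i h⟩
  have h1 := h i
  change 0 < sf p i (p i) at h1
  rw [Pool.Agent.W82.BB.sf_vertex_left] at h1
  exact lt_irrefl _ h1

theorem near_in (hp : IsConvexPolygon p) {i : Fin (n + 3)} {θ b : ℝ}
    (h : p i + b • dir θ ∈ reg p) {κ : ℝ} (h0 : 0 < κ) (h1 : κ ≤ 1) :
    p i + (κ * b) • dir θ ∈ reg p := by
  have := scale_in hp i h h0 h1
  rwa [add_sub_cancel_left, smul_smul] at this

/-- the reversed chains, in terms of the coordinate on the final line -/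
theorem reach_rev (hp : IsConvexPolygon p) {i : Fin (n + 3)} {w : List (Fin (n + 3))} {θ φ : ℝ}
    (h : Reach p i w θ) (hφ : ∀ s : ℝ, fp p w (p i + s • dir θ) = fp p w (p i) + s • dir φ) :
    ∃ b s : ℝ, 0 < b ∧ b < s ∧ fp p w (p i) + s • dir φ ∈ reg p ∧
      ∀ β : ℝ, 0 < β → β ≤ b →
        Ch p w.reverse (fp p w (p i) + s • dir φ) (fp p w (p i) + β • dir φ) := by
  obtain ⟨b, s, hb, hbs, hreg, hch⟩ := h
  have hmem := ch_mem w _ _ hch
  rw [hφ] at hmem
  refine ⟨b, s, hb, hbs, hmem, fun β h0 h1 => ?_⟩
  have h2 : p i + β • dir θ ∈ reg p := by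
    have h3 := near_in hp hreg (κ := β / b) (div_pos h0 hb) ((div_le_one hb).2 h1)
    rwa [div_mul_cancel₀ _ hb.ne'] at h3
  have hsb : s - b ≠ 0 := by linarith
  have e : (p i + s • dir θ) + ((s - β) / (s - b)) • ((p i + b • dir θ) - (p i + s • dir θ)) =
      p i + β • dir θ := by
    have e1 : (p i + b • dir θ) - (p i + s • dir θ) = (-(s - b)) • dir θ := by
      rw [neg_smul, sub_smul]
      ring
    rw [e1, smul_smul]
    have e2 : (s - β) / (s - b) * -(s - b) = -(s - β) := by
      field_simp
    rw [e2, neg_smul, sub_smul]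
    ring
  have h3 := ch_shift hch (κ := (s - β) / (s - b)) (by
    refine div_ne_zero ?_ hsb
    linarith) (by rw [e]; exact h2)
  rw [e] at h3
  have h4 := _root_.W973.BB.rev hR n p hp w _ _ h2 h3
  rwa [hφ, hφ] at h4

/-- Two different itineraries never lead from the vertex to the same line, in the same direction. -/
theorem distinct (hp : IsConvexPolygon p) {i : Fin (n + 3)} {w w' : List (Fin (n + 3))}
    {θ θ' φ : ℝ} (h : Reach p i w θ) (h' : Reach p i w' θ')
    (hφ : ∀ s : ℝ, fp p w (p i + s • dir θ) = fp p w (p i) + s • dir φ)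
    (hφ' : ∀ s : ℝ, fp p w' (p i + s • dir θ') = fp p w' (p i) + s • dir φ)
    (hco : co φ (fp p w (p i)) = co φ (fp p w' (p i))) : w = w' := by
  -- the case where the second vertex is not behind the first one
  have key : ∀ (w w' : List (Fin (n + 3))) (θ θ' : ℝ), Reach p i w θ → Reach p i w' θ' →
      (∀ s : ℝ, fp p w (p i + s • dir θ) = fp p w (p i) + s • dir φ) →
      (∀ s : ℝ, fp p w' (p i + s • dir θ') = fp p w' (p i) + s • dir φ) →
      ∀ y : ℝ, 0 ≤ y → fp p w' (p i) = fp p w (p i) + y • dir φ → w = w' := by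
    intro w w' θ θ' h h' hφ hφ' y hy he
    obtain ⟨b, s, hb, hbs, hreg, hch⟩ := reach_rev hp h hφ
    obtain ⟨b', s', hb', hbs', hreg', hch'⟩ := reach_rev hp h' hφ'
    set x := fp p w (p i) with hx
    rw [he] at hreg' hch'
    -- the first chain may also start at the start of the second one
    set S : ℝ := y + s' with hS
    have eS : x + y • dir φ + s' • dir φ = x + S • dir φ := by rw [hS, add_smul]; ring
    rw [eS] at hreg' hch'
    have hch2 : ∀ β : ℝ, 0 < β → β ≤ b → β < S →
        Ch p w.reverse (x + S • dir φ) (x + β • dir φ) := by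
      intro β h0 h1 h2
      have hsβ : s - β ≠ 0 := by linarith
      have e : (x + β • dir φ) + ((S - β) / (s - β)) • ((x + s • dir φ) - (x + β • dir φ)) =
          x + S • dir φ := by
        have e1 : (x + s • dir φ) - (x + β • dir φ) = (s - β) • dir φ := by
          rw [sub_smul]; ring
        rw [e1, smul_smul, div_mul_cancel₀ _ hsβ, sub_smul]
        ring
      have h3 := ch_shift (hch β h0 h1) (κ := (S - β) / (s - β))
        (div_ne_zero (by linarith) hsβ) (by rw [e]; exact hreg')
      rwa [e] at h3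
    rcases hy.eq_or_lt with hy0 | hy0
    · -- the same vertex
      rw [← hy0, zero_smul, add_zero] at hch'
      set β : ℝ := min b b' with hβ
      have hβ0 : 0 < β := lt_min hb hb'
      have hβS : β < S := by
        rw [hS, ← hy0, zero_add]
        exact (min_le_right _ _).trans_lt hbs'
      have h1 := hch2 β hβ0 (min_le_left _ _) hβS
      have h2 := hch' β hβ0 (min_le_right _ _)
      have h3 := Pool.Agent.W108.BB.uniq n p hp _ _ _ _ h1 h2
      exact List.reverse_injective h3
    · exfalso
      -- the first chain passes the second vertex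
      set β : ℝ := min b (y / 2) with hβ
      have hβ0 : 0 < β := lt_min hb (by linarith)
      have hβy : β < y := (min_le_right _ _).trans_lt (by linarith)
      have hyS : y < S := by rw [hS]; linarith
      have h1 := hch2 β hβ0 (min_le_left _ _) (hβy.trans hyS)
      have hSβ : 0 < S - β := by linarith
      have hpt : ∀ τ : ℝ, (x + S • dir φ) + τ • ((x + β • dir φ) - (x + S • dir φ)) =
          x + (S - τ * (S - β)) • dir φ := by
        intro τ
        have e1 : (x + β • dir φ) - (x + S • dir φ) = (-(S - β)) • dir φ := by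
          rw [neg_smul, sub_smul]; ring
        have e2 : S - τ * (S - β) = S + τ * -(S - β) := by ring
        rw [e1, smul_smul, e2, add_assoc, ← add_smul]
      set τ : ℝ := (S - y) / (S - β) with hτ
      have hτ0 : 0 < τ := div_pos (by linarith) hSβ
      have hτ1 : τ < 1 := (div_lt_one hSβ).2 (by linarith)
      have hτy : S - τ * (S - β) = y := by
        rw [hτ, div_mul_cancel₀ _ hSβ.ne']
        ring
      obtain ⟨v, h2, h3⟩ := pre hp w.reverse _ _ (reg_sub_creg p hreg') h1 τ hτ0 hτ1
      have h4 : ∀ᶠ τ' in 𝓝[<] τ, Ch p w'.reverse (x + S • dir φ)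
          ((x + S • dir φ) + τ' • ((x + β • dir φ) - (x + S • dir φ))) := by
        have h5 : ∀ᶠ τ' in 𝓝[<] τ, τ - b' / (S - β) < τ' := by
          filter_upwards [Ioo_mem_nhdsLT (show τ - b' / (S - β) < τ by
            have := div_pos hb' hSβ
            linarith)] with τ' h6 using h6.1
        filter_upwards [h5, self_mem_nhdsWithin] with τ' h6 h7
        have h7' : τ' < τ := h7
        rw [hpt]
        have e3 : x + (S - τ' * (S - β)) • dir φ =
            x + y • dir φ + ((τ - τ') * (S - β)) • dir φ := by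
          have : S - τ' * (S - β) = y + (τ - τ') * (S - β) := by linarith [hτy]
          rw [this, add_smul]
          ring
        rw [e3]
        refine hch' _ (mul_pos (by linarith) hSβ) ?_
        have h8 : τ - τ' ≤ b' / (S - β) := by linarith
        calc (τ - τ') * (S - β) ≤ b' / (S - β) * (S - β) :=
              mul_le_mul_of_nonneg_right h8 hSβ.le
          _ = b' := div_mul_cancel₀ _ hSβ.ne'
      obtain ⟨τ', h5, h6⟩ := (h2.and h4).exists
      have h7 := Pool.Agent.W108.BB.uniq n p hp _ _ _ _ h5 h6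
      rw [h7, hpt, hτy, ← he, _root_.W973.BB.fp_reverse p (rf_rf hp)] at h3
      rcases h3 with h3 | ⟨j, h3⟩
      · exact (vertex_not_mem hp i).1 h3
      · exact (vertex_not_mem hp i).2 j h3
  obtain ⟨y, hy⟩ := co_eq hco
  rcases le_total 0 y with h0 | h0
  · exact key w w' θ θ' h h' hφ hφ' y h0 hy
  · refine (key w' w θ' θ h' h hφ' hφ (-y) (by linarith) ?_).symm
    rw [hy, neg_smul]
    ring

end Pool.Agent.Q67.BP
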