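import Pool.Agent.Q67.BP.Lim

set_option autoImplicit false

/-!
The values of an invariant function with few jumps.
-/

namespace Pool.Agent.Q67.BP

open Complex Set MeasureTheory Filter Topology Pool.Agent.W780.PG Pool.Agent.W780.BB
open Pool.Agent.TH103.BL Pool.Agent.Q75.BS Pool.Agent.Q259.BS

open scoped Real ComplexConjugate ENNReal

variable {n : ℕ} {p : Fin (n + 3) → ℂ}

/-- approximate values of the slices are close to the values at the vertices -/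
theorem near_val (hp : IsConvexPolygon p) {f : ℂ × ℝ → ℝ} (hI : IsInvariantFun p f)
    {c : Fin (n + 3) → ℝ} (hc : ∀ j, ∀ᵐ θ : ℝ, VLim p (sli f θ) j (c j)) :
    ∀ᵐ θ : ℝ, ∀ z ∈ reg p, ∀ a η : ℝ, Near (sli f θ) z a η → ∃ j, |a - c j| ≤ η := by
  have hdir : ∀ᵐ θ : ℝ, ∀ (w : List (Fin (n + 3))) (j : Fin (n + 3)), ∀ z : ℂ,
      VLim p (sli f (fd p w (z, θ)).2) j (c j) := by
    rw [ae_all_iff]
    intro w
    rw [ae_all_iff]
    intro j
    exact dir_ae hp (hc j) w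
  have hall : ∀ᵐ θ : ℝ, ∀ m : ℕ, ∀ z ∈ reg p, ∀ (u : ℕ → Fin (n + 3)) (t : ℕ → ℝ),
      Orb p z θ u t → ∃ K s j, tp t K < s ∧ s < t K ∧
      ‖ps p z θ u K s - p j‖ < 1 / ((m : ℝ) + 1) := by
    rw [ae_all_iff]
    intro m
    exact allz hp (by positivity)
  filter_upwards [hdir, hall, ok_ae hp] with θ h2 h3 h4
  have key : ∀ z ∈ reg p, Ok p z θ 0 → ∀ a η : ℝ, Near (sli f θ) z a η → ∃ j, |a - c j| ≤ η := by
    intro z hz hOk a η ha
    by_contra hcon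
    push Not at hcon
    obtain ⟨ρ0, hρ0, hae0⟩ := ha
    obtain ⟨ρ1, hρ1, hball1⟩ := Metric.isOpen_iff.1 (reg_open hp) z hz
    set ρ := min ρ0 ρ1 with hρdef
    have hρ : 0 < ρ := lt_min hρ0 hρ1
    have hclose : ∀ᵐ z' : ℂ, ‖z' - z‖ < ρ → |sli f θ z' - a| ≤ η := by
      filter_upwards [hae0] with z' h h'
      exact h (h'.trans_le (min_le_left _ _))
    have hball : Metric.ball z ρ ⊆ reg p :=
      (Metric.ball_subset_ball (min_le_right _ _)).trans hball1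
    obtain ⟨u, t, O⟩ := exists_orb hp hOk
    have hfol := Pool.Agent.Q150.BS.t_FOL n p hp z θ u t O ρ hρ hball (by
      intro z' hz' K s j hs hfp hch
      have hlim : Lim (sli f θ) z' (c j) :=
        Pool.Agent.Q210.BS.t_HIT n p hp f hI _ z' θ s j (c j) (hball hz') hfp hch (h2 _ j _)
      rw [Metric.mem_ball, dist_eq_norm] at hz'
      have h5 := lim_near hclose hz' hlim
      have h6 := hcon j
      linarith)
    obtain ⟨m, hm⟩ := exists_nat_gt (1 / ρ)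
    have hm1 : 1 / ((m : ℝ) + 1) < ρ := by
      rw [div_lt_iff₀ (by positivity)]
      rw [div_lt_iff₀ hρ] at hm
      linarith
    obtain ⟨K, s, j, hs1, hs2, hs3⟩ := h3 m z hz u t O
    have h5 := hfol K s j hs1 hs2
    linarith
  intro z hz a η ha
  obtain ⟨ρ0, hρ0, hae0⟩ := ha
  obtain ⟨ρ1, hρ1, hball1⟩ := Metric.isOpen_iff.1 (reg_open hp) z hz
  obtain ⟨y, hy1, hy⟩ := (Measure.dense_of_ae h4).exists_mem_open Metric.isOpen_ball
    ⟨z, Metric.mem_ball_self (lt_min hρ0 hρ1)⟩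
  rw [Metric.mem_ball, dist_eq_norm] at hy
  have hyr : y ∈ reg p := hball1 (by
    rw [Metric.mem_ball, dist_eq_norm]; exact hy.trans_le (min_le_right _ _))
  refine key y hyr (hy1 hyr) a η ⟨ρ0 - ‖y - z‖, ?_, ?_⟩
  · have := hy.trans_le (min_le_left _ _)
    linarith
  · filter_upwards [hae0] with z' h h'
    refine h ?_
    calc ‖z' - z‖ = ‖(z' - y) + (y - z)‖ := by congr 1; ring
      _ ≤ ‖z' - y‖ + ‖y - z‖ := norm_add_le _ _
      _ < ρ0 := by linarith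

/-- where `g` is nearly constant in a neighbourhood, it is close to the constant almost everywhere -/
theorem ae_of_near (g : ℂ → ℝ) (c η : ℝ) : ∀ᵐ z : ℂ, Near g z c η → |g z - c| ≤ η := by
  have h : volume {z : ℂ | Near g z c η ∧ ¬ |g z - c| ≤ η} = 0 := by
    refine measure_null_of_locally_null _ fun z hz => ?_
    obtain ⟨⟨ρ, hρ, hae⟩, -⟩ := hz
    refine ⟨{z' : ℂ | ‖z' - z‖ < ρ ∧ ¬ |g z' - c| ≤ η}, ?_, ?_⟩
    · have h1 : Metric.ball z ρ ∈ 𝓝 z := Metric.ball_mem_nhds z hρ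
      filter_upwards [mem_nhdsWithin_of_mem_nhds h1, self_mem_nhdsWithin] with z' h2 h3
      rw [Metric.mem_ball, dist_eq_norm] at h2
      exact ⟨h2, h3.2⟩
    · refine measure_eq_zero_iff_ae_notMem.2 ?_
      filter_upwards [hae] with z' h2
      rintro ⟨h3, h4⟩
      exact h4 (h2 h3)
  filter_upwards [measure_eq_zero_iff_ae_notMem.1 h] with z hz h1
  by_contra h2
  exact hz ⟨h1, h2⟩

/-- almost all values are values at the vertices -/
theorem values_slice (hp : IsConvexPolygon p) {f : ℂ × ℝ → ℝ} (hI : IsInvariantFun p f)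
    (hJ : HasFewJumps p f) {c : Fin (n + 3) → ℝ}
    (hc : ∀ j, ∀ᵐ θ : ℝ, VLim p (sli f θ) j (c j)) :
    ∀ᵐ θ : ℝ, ∀ᵐ z : ℂ, z ∈ reg p → ∃ j, f (z, θ) = c j := by
  have h1 : ∀ k : ℕ, ∀ᵐ θ : ℝ, ∃ N : ℕ, Jumps p f θ (1 / ((k : ℝ) + 1)) N := by
    intro k
    obtain ⟨N, -, -, hN2⟩ := hJ (1 / ((k : ℝ) + 1)) (by positivity)
    filter_upwards [np_ae hI hN2] with θ hθ
    exact ⟨_, hθ⟩
  filter_upwards [near_val hp hI hc, ae_all_iff.2 h1] with θ h2 h3
  have h4 : ∀ k : ℕ, ∀ᵐ z : ℂ, z ∈ reg p → ∃ j, |f (z, θ) - c j| ≤ 2 * (1 / ((k : ℝ) + 1)) := by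
    intro k
    have hη : 0 < 1 / ((k : ℝ) + 1) := by positivity
    obtain ⟨N, F, hF, hcard, hae⟩ := h3 k
    set η : ℝ := 1 / ((k : ℝ) + 1) with hηdef
    have hfin : (jmp F η).Finite := by
      refine Set.finite_of_encard_le_coe hcard
    have h5 : ∀ᵐ z : ℂ, co θ z ∉ jmp F η := by
      have h6 : ∀ᵐ z : ℂ, ∀ s ∈ jmp F η, co θ z ≠ s :=
        (ae_ball_iff hfin.countable).2 fun s _ => co_ne θ s
      filter_upwards [h6] with z hz hcon
      exact hz _ hcon rfl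
    have h6 : ∀ᵐ z : ℂ, ∀ j, Near (sli f θ) z (c j) (2 * η) → |sli f θ z - c j| ≤ 2 * η := by
      rw [ae_all_iff]
      intro j
      exact ae_of_near _ _ _
    filter_upwards [h5, h6] with z h7 h8 hz
    obtain ⟨a, ha⟩ := near_of_jump hp hη hae hz h7
    obtain ⟨j, hj⟩ := h2 z hz a _ ha
    refine ⟨j, h8 j ?_⟩
    obtain ⟨ρ, hρ, h9⟩ := ha
    refine ⟨ρ, hρ, ?_⟩
    filter_upwards [h9] with z' h10 h11
    have := abs_sub_le (sli f θ z') a (c j)
    have := h10 h11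
    linarith
  filter_upwards [ae_all_iff.2 h4] with z hz hzr
  by_contra hcon
  push Not at hcon
  have h5 : ∃ δ : ℝ, 0 < δ ∧ ∀ j, δ < |f (z, θ) - c j| := by
    have h6 : ∀ᶠ δ in 𝓝[>] (0 : ℝ), ∀ j, δ < |f (z, θ) - c j| := by
      rw [eventually_all]
      intro j
      have h6 : 0 < |f (z, θ) - c j| := abs_pos.2 (sub_ne_zero.2 (hcon j))
      filter_upwards [Ioo_mem_nhdsGT h6] with d hd using hd.2
    obtain ⟨δ, h6, h7⟩ := (h6.and self_mem_nhdsWithin).exists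
    exact ⟨δ, h7, h6⟩
  obtain ⟨δ, hδ, h6⟩ := h5
  obtain ⟨k, hk⟩ := exists_nat_one_div_lt (half_pos hδ)
  obtain ⟨j, hj⟩ := hz k hzr
  have := h6 j
  linarith

theorem values (hp : IsConvexPolygon p) {f : ℂ × ℝ → ℝ} (hf : Measurable f)
    (hI : IsInvariantFun p f) (hJ : HasFewJumps p f) {c : Fin (n + 3) → ℝ}
    (hc : ∀ j, ∀ᵐ θ : ℝ, VLim p (sli f θ) j (c j)) :
    ∀ᵐ x : ℂ × ℝ, x.1 ∈ region p → ∃ j, f x = c j := by
  set S : Set (ℂ × ℝ) := {x | x.1 ∈ reg p ∧ ¬ ∃ j, f x = c j} with hS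
  have hTm : MeasurableSet {x : ℂ × ℝ | ¬ ∃ j, f x = c j} := by
    have : {x : ℂ × ℝ | ¬ ∃ j, f x = c j} = (⋃ j, f ⁻¹' {c j})ᶜ := by
      ext x; simp
    rw [this]
    exact (MeasurableSet.iUnion fun j => hf (measurableSet_singleton _)).compl
  have hSm : MeasurableSet S := (measurable_fst (reg_open hp).measurableSet).inter hTm
  have h0 : volume S = 0 := by
    rw [Measure.volume_eq_prod, Measure.prod_apply_symm hSm]
    rw [lintegral_eq_zero_iff (measurable_measure_prodMk_right hSm)]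
    filter_upwards [values_slice hp hI hJ hc] with θ hθ
    refine measure_eq_zero_iff_ae_notMem.2 ?_
    filter_upwards [hθ] with z hz
    rintro ⟨h1, h2⟩
    exact h2 (hz h1)
  filter_upwards [measure_eq_zero_iff_ae_notMem.1 h0] with x hx h1
  by_contra h2
  exact hx ⟨by rw [← region_eq hp]; exact h1, h2⟩

/-- the slices are constant near the vertices -/
theorem const_near (hp : IsConvexPolygon p) {f : ℂ × ℝ → ℝ} (hI : IsInvariantFun p f)
    (hJ : HasFewJumps p f) {c : Fin (n + 3) → ℝ}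
    (hc : ∀ j, ∀ᵐ θ : ℝ, VLim p (sli f θ) j (c j)) (i : Fin (n + 3)) :
    ∀ᵐ θ : ℝ, ∃ ρ : ℝ, 0 < ρ ∧ ∀ᵐ z : ℂ, z ∈ region p → ‖z - p i‖ < ρ → f (z, θ) = c i := by
  obtain ⟨δ, hδ, hgap⟩ : ∃ δ : ℝ, 0 < δ ∧ ∀ j, c j ≠ c i → δ < |c j - c i| := by
    have h6 : ∀ᶠ δ in 𝓝[>] (0 : ℝ), ∀ j, c j ≠ c i → δ < |c j - c i| := by
      rw [eventually_all]
      intro j
      by_cases h : c j = c i
      · exact Eventually.of_forall fun _ h' => absurd h h'
      · have h6 : 0 < |c j - c i| := abs_pos.2 (sub_ne_zero.2 h)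
        filter_upwards [Ioo_mem_nhdsGT h6] with d hd _ using hd.2
    obtain ⟨δ, h6, h7⟩ := (h6.and self_mem_nhdsWithin).exists
    exact ⟨δ, h7, h6⟩
  filter_upwards [hc i, values_slice hp hI hJ hc] with θ h1 h2
  obtain ⟨ρ, hρ, h3⟩ := h1 δ hδ
  refine ⟨ρ, hρ, ?_⟩
  filter_upwards [h2, h3] with z h4 h5 h6 h7
  rw [region_eq hp] at h6
  obtain ⟨j, hj⟩ := h4 h6
  have h8 : |f (z, θ) - c i| ≤ δ := h5 h6 h7
  by_contra h9
  rw [hj] at h8 h9
  have := hgap j h9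
  linarith

end Pool.Agent.Q67.BP
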