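import Pool.Agent.Q67.BP.Val

set_option autoImplicit false

/-!
Functions of finite positional variation have few jumps; disjoint invariant sets with few jumps.
-/

namespace Pool.Agent.Q67.BP

open Complex Set MeasureTheory Filter Topology Pool.Agent.W780.PG Pool.Agent.W780.BB
open Pool.Agent.TH103.BL Pool.Agent.Q75.BS

open scoped Real ComplexConjugate ENNReal

/-- the number of jumps is bounded by the variation -/
theorem card_le_var (F : ℝ → ℝ) {ε : ℝ}
    (hF : ∀ s, ∃ l r : ℝ, Tendsto F (𝓝[<] s) (𝓝 l) ∧ Tendsto F (𝓝[>] s) (𝓝 r)) (S : Finset ℝ) :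
    (∀ x ∈ S, x ∈ jmp F ε) → ∀ b : ℝ, (∀ x ∈ S, x < b) →
      (S.card : ℝ≥0∞) * ENNReal.ofReal ε ≤ eVariationOn F (Iio b) := by
  induction S using Finset.induction_on_max with
  | empty => intro _ b _; simp
  | insert a S hmax ih =>
    intro hS b hb
    have hab : a < b := hb a (Finset.mem_insert_self _ _)
    obtain ⟨c, hca, hcS⟩ : ∃ c, c < a ∧ ∀ x ∈ S, x < c := by
      have h1 : ∀ᶠ c in 𝓝[<] a, ∀ x ∈ S, x < c := by
        rw [Filter.eventually_all_finset]
        intro x hx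
        filter_upwards [Ioo_mem_nhdsLT (hmax x hx)] with c hc using hc.1
      obtain ⟨c, h2, h3⟩ := (h1.and self_mem_nhdsWithin).exists
      exact ⟨c, h3, h2⟩
    have h1 := ih (fun x hx => hS x (Finset.mem_insert_of_mem hx)) c hcS
    obtain ⟨l, r, hl, hr⟩ := hF a
    have hjump : ε ≤ |l - r| := hS a (Finset.mem_insert_self _ _) l r hl hr
    have h2 : ∀ x ∈ Ioo c a, ∀ y ∈ Ioo a b, edist (F x) (F y) ≤ eVariationOn F (Ico c b) :=
      fun x hx y hy => eVariationOn.edist_le F ⟨hx.1.le, hx.2.trans hab⟩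
        ⟨(hca.trans hy.1).le, hy.2⟩
    have h3 : ∀ y ∈ Ioo a b, edist l (F y) ≤ eVariationOn F (Ico c b) := by
      intro y hy
      have ht : Tendsto (fun x => edist (F x) (F y)) (𝓝[<] a) (𝓝 (edist l (F y))) :=
        hl.edist tendsto_const_nhds
      refine le_of_tendsto ht ?_
      filter_upwards [Ioo_mem_nhdsLT hca] with x hx using h2 x hx y hy
    have h4 : edist l r ≤ eVariationOn F (Ico c b) := by
      have ht : Tendsto (fun y => edist l (F y)) (𝓝[>] a) (𝓝 (edist l r)) :=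
        tendsto_const_nhds.edist hr
      refine le_of_tendsto ht ?_
      filter_upwards [Ioo_mem_nhdsGT hab] with y hy using h3 y hy
    have h5 : ENNReal.ofReal ε ≤ edist l r := by
      rw [edist_dist, Real.dist_eq]
      exact ENNReal.ofReal_le_ofReal hjump
    have h6 : eVariationOn F (Iio c) + eVariationOn F (Ico c b) ≤ eVariationOn F (Iio b) := by
      have h7 := eVariationOn.add_le_union F (s := Iio c) (t := Ico c b)
        fun x hx y hy => (show x < c from hx).le.trans hy.1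
      rwa [Iio_union_Ico_eq_Iio (hca.trans hab).le] at h7
    have hnot : a ∉ S := fun h => lt_irrefl _ (hmax a h)
    rw [Finset.card_insert_of_notMem hnot]
    push_cast
    rw [add_mul, one_mul]
    exact (add_le_add h1 (h5.trans h4)).trans h6

theorem encard_le_var (F : ℝ → ℝ) {ε : ℝ} (hε : 0 < ε)
    (hF : ∀ s, ∃ l r : ℝ, Tendsto F (𝓝[<] s) (𝓝 l) ∧ Tendsto F (𝓝[>] s) (𝓝 r)) {V : ℝ≥0∞}
    (hV : V < ⊤) (h : eVariationOn F univ ≤ V) : (jmp F ε).encard ≤ ⌊V.toReal / ε⌋₊ := by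
  by_contra hcon
  rw [not_le] at hcon
  have h1 : ((⌊V.toReal / ε⌋₊ + 1 : ℕ) : ℕ∞) ≤ (jmp F ε).encard := by
    push_cast
    exact Order.add_one_le_of_lt hcon
  obtain ⟨t, ht, htc⟩ := Set.exists_subset_encard_eq h1
  have htf : t.Finite := Set.finite_of_encard_eq_coe htc
  have hcard : htf.toFinset.card = ⌊V.toReal / ε⌋₊ + 1 := by
    rw [htf.encard_eq_coe_toFinset_card] at htc
    exact_mod_cast htc
  obtain ⟨b, hb⟩ : ∃ b, ∀ x ∈ htf.toFinset, x < b := by
    obtain ⟨M, hM⟩ := htf.bddAbove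
    refine ⟨M + 1, fun x hx => ?_⟩
    have := hM (htf.mem_toFinset.1 hx)
    linarith
  have h2 := card_le_var F hF htf.toFinset (fun x hx => ht (htf.mem_toFinset.1 hx)) b hb
  have h3 : (htf.toFinset.card : ℝ≥0∞) * ENNReal.ofReal ε ≤ V :=
    (h2.trans (eVariationOn.mono F (subset_univ _))).trans h
  rw [hcard] at h3
  have h4 : (((⌊V.toReal / ε⌋₊ + 1 : ℕ) : ℝ) * ε) ≤ V.toReal := by
    have h5 := ENNReal.toReal_mono hV.ne h3
    rw [ENNReal.toReal_mul, ENNReal.toReal_natCast, ENNReal.toReal_ofReal hε.le] at h5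
    exact h5
  have h5 := Nat.lt_floor_add_one (V.toReal / ε)
  rw [div_lt_iff₀ hε] at h5
  push_cast at h4
  linarith

variable {n : ℕ} {p : Fin (n + 3) → ℂ}

theorem few_of_var {f : ℂ × ℝ → ℝ} (h : HasFiniteVariation p f) : HasFewJumps p f := by
  obtain ⟨V, hVm, hVi, hae⟩ := h
  intro ε hε
  refine ⟨fun θ => ⌊(V θ).toReal / ε⌋₊, Nat.measurable_floor.comp
    (hVm.ennreal_toReal.div_const _), ?_, ?_⟩
  · have h1 : ∀ θ, ((⌊(V θ).toReal / ε⌋₊ : ℕ) : ℝ≥0∞) ≤ (ENNReal.ofReal ε)⁻¹ * V θ := by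
      intro θ
      calc ((⌊(V θ).toReal / ε⌋₊ : ℕ) : ℝ≥0∞) = ENNReal.ofReal ((⌊(V θ).toReal / ε⌋₊ : ℕ) : ℝ) :=
            (ENNReal.ofReal_natCast _).symm
        _ ≤ ENNReal.ofReal ((V θ).toReal / ε) :=
            ENNReal.ofReal_le_ofReal (Nat.floor_le (by positivity))
        _ = ENNReal.ofReal (V θ).toReal / ENNReal.ofReal ε := ENNReal.ofReal_div_of_pos hε
        _ ≤ V θ / ENNReal.ofReal ε := ENNReal.div_le_div_right ENNReal.ofReal_toReal_le _
        _ = (ENNReal.ofReal ε)⁻¹ * V θ := by rw [ENNReal.div_eq_inv_mul]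
    calc ∫⁻ θ in Ico 0 (2 * π), ((⌊(V θ).toReal / ε⌋₊ : ℕ) : ℝ≥0∞) ≤
          ∫⁻ θ in Ico 0 (2 * π), (ENNReal.ofReal ε)⁻¹ * V θ := lintegral_mono fun θ => h1 θ
      _ = (ENNReal.ofReal ε)⁻¹ * ∫⁻ θ in Ico 0 (2 * π), V θ := lintegral_const_mul _ hVm
      _ < ⊤ := ENNReal.mul_lt_top (by simpa using hε) hVi
  · have h1 : ∀ᵐ θ : ℝ, θ ∈ Ico 0 (2 * π) → V θ < ⊤ := by
      have := ae_lt_top hVm hVi.ne
      rwa [ae_restrict_iff' measurableSet_Ico] at this
    filter_upwards [hae, h1] with θ h2 h3 hθ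
    obtain ⟨F, h4, h5⟩ := h2 hθ
    have hb : BoundedVariationOn F univ := ne_top_of_le_ne_top (h3 hθ).ne h4
    have hF : ∀ s, ∃ l r : ℝ, Tendsto F (𝓝[<] s) (𝓝 l) ∧ Tendsto F (𝓝[>] s) (𝓝 r) := by
      intro s
      exact ⟨_, _, hb.tendsto_leftLim s, hb.tendsto_rightLim s⟩
    exact ⟨F, hF, encard_le_var F hε hF (h3 hθ) h4, h5⟩

/-- disjoint invariant sets with few jumps -/
theorem at_most (hp : IsConvexPolygon p) (hirr : ∀ i, Irrational (ang p i / π)) {k : ℕ}
    {A : Fin k → Set (ℂ × ℝ)} (hA : ∀ m, MeasurableSet (A m)) (hI : ∀ m, IsInvariant p (A m))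
    (hJ : ∀ m, HasFewJumps p ((A m).indicator fun _ => 1))
    (hd : ∀ m m', m ≠ m' → volume (phase p ∩ A m ∩ A m') = 0)
    (hpos : ∀ m, volume (phase p ∩ A m) ≠ 0) : k ≤ n + 3 := by
  classical
  have hm : ∀ m, Measurable ((A m).indicator fun _ => (1 : ℝ)) := fun m =>
    measurable_const.indicator (hA m)
  have hII : ∀ m, IsInvariantFun p ((A m).indicator fun _ => (1 : ℝ)) := fun m => ind_inv (hI m)
  have h1 : ∀ m, ∃ i, ∀ᵐ θ : ℝ, VLim p (sli ((A m).indicator fun _ => (1 : ℝ)) θ) i 1 := by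
    intro m
    obtain ⟨c, hc⟩ := vlim_const hp hirr (hm m) (hII m) (hJ m)
    have h2 := values hp (hm m) (hII m) (hJ m) hc
    have h3 : (phase p ∩ A m ∩ {x | x.1 ∈ region p → ∃ j,
        (A m).indicator (fun _ => (1 : ℝ)) x = c j}).Nonempty := by
      rw [nonempty_iff_ne_empty]
      intro h0
      apply hpos m
      refine measure_mono_null ?_ (ae_iff.1 h2)
      intro x hx hcon
      have : x ∈ (∅ : Set (ℂ × ℝ)) := by
        rw [← h0]
        exact ⟨hx, hcon⟩
      exact this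
    obtain ⟨x, ⟨hx1, hx2⟩, hx3⟩ := h3
    obtain ⟨j, hj⟩ := hx3 hx1.1
    rw [indicator_of_mem hx2] at hj
    have h4 := hc j
    rw [← hj] at h4
    exact ⟨j, h4⟩
  choose i hi using h1
  have hinj : Function.Injective i := by
    intro m m' hmm
    by_contra hne
    have h2 : ∀ᵐ θ : ℝ, volume {z : ℂ | z ∈ region p ∧ (z, θ) ∈ A m ∩ A m'} ≠ 0 := by
      filter_upwards [hi m, hi m'] with θ h3 h4
      rw [← hmm] at h4
      obtain ⟨ρ, hρ, h5⟩ := h3 (1 / 2) (by norm_num)
      obtain ⟨ρ', hρ', h6⟩ := h4 (1 / 2) (by norm_num)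
      obtain ⟨q, hq⟩ := exists_nat_one_div_lt (lt_min hρ hρ')
      have hv : volume (Pool.Agent.Q210.BS.nb p (i m) q) ≠ 0 := by
        have h7 := Pool.Agent.Q210.BS.nb_pos hp (i m) q
        intro h0
        rw [h0] at h7
        simp at h7
      intro h0
      apply hv
      refine measure_mono_null ?_ (measure_union_null h0 (ae_iff.1 (h5.and h6)))
      intro z hz
      by_cases hb : (z ∈ reg p → ‖z - p (i m)‖ < ρ →
          |sli ((A m).indicator fun _ => (1 : ℝ)) θ z - 1| ≤ 1 / 2) ∧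
        (z ∈ reg p → ‖z - p (i m)‖ < ρ' →
          |sli ((A m').indicator fun _ => (1 : ℝ)) θ z - 1| ≤ 1 / 2)
      · left
        have hzb : ‖z - p (i m)‖ < 1 / ((q : ℝ) + 1) := by
          have h8 : z ∈ Metric.ball (p (i m)) (1 / ((q : ℝ) + 1)) := hz.2
          rwa [Metric.mem_ball, dist_eq_norm] at h8
        have h9 := hb.1 hz.1 ((hzb.trans hq).trans_le (min_le_left _ _))
        have h10 := hb.2 hz.1 ((hzb.trans hq).trans_le (min_le_right _ _))
        refine ⟨by rw [region_eq hp]; exact hz.1, ?_, ?_⟩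
        · by_contra hcon
          unfold sli at h9
          rw [indicator_of_notMem hcon] at h9
          norm_num at h9
        · by_contra hcon
          unfold sli at h10
          rw [indicator_of_notMem hcon] at h10
          norm_num at h10
      · right
        exact hb
    have hphm : MeasurableSet (phase p) := by
      unfold phase
      rw [region_eq hp]
      exact (reg_open hp).measurableSet.prod measurableSet_Ico
    have hTm : MeasurableSet (phase p ∩ A m ∩ A m') := (hphm.inter (hA m)).inter (hA m')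
    have h3 := hd m m' hne
    rw [Measure.volume_eq_prod, Measure.prod_apply_symm hTm,
      lintegral_eq_zero_iff (measurable_measure_prodMk_right hTm)] at h3
    have h4 : volume (Ico (0 : ℝ) (2 * π)) = 0 := by
      refine measure_mono_null ?_ (ae_iff.1 (h2.and h3))
      intro θ hθ hcon
      obtain ⟨h5, h6⟩ := hcon
      apply h5
      refine measure_mono_null ?_ h6
      rintro z ⟨h7, h8, h9⟩
      exact ⟨⟨⟨h7, hθ⟩, h8⟩, h9⟩
    rw [Real.volume_Ico, sub_zero, ENNReal.ofReal_eq_zero] at h4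
    have := Real.two_pi_pos
    linarith
  have := Fintype.card_le_of_injective i hinj
  simpa using this

end Pool.Agent.Q67.BP
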